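import Mathlib

set_option autoImplicit false

/-!
# Project EP: the exponent pair conjecture for almost every small perturbation of the integers

Statements of the packages.  Every `S_X` is a `Prop`; package `X` proves `theorem t_X : ... → S_X`.

THEOREM (hard problem MP_493793_nt).  Let `ρ` be a `C²` density with support in `[0, 1]`, `Y n` independent
with density `ρ`, `0 < d l ≤ 1`.  For almost every `ω`, for all `ε > 0` and all constants `(c_j)`, `(C_j)` there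
is `K` with `|∑_{N ≤ n ≤ N'} e(f(n + d(⌊log₂ n⌋) Y n))| ≤ K F^ε (N^(1/2) + N / (d √F))` for all `2 ≤ N ≤ N' ≤ 2N`
and all admissible `f`.  If `d l ≥ c 2^(-η l)` for every `η > 0` (e.g. `d l = 1 / (l + 1)`, so that the
perturbations tend to zero) this is the conjectured bound `K N^(1/2) F^ε`.
-/

namespace Pool.Agent.U501.EP

open MeasureTheory ProbabilityTheory Finset

noncomputable section

/-- `e(x) = exp(2 π i x)` -/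
def ee (x : ℝ) : ℂ := Complex.exp (2 * (Real.pi : ℂ) * Complex.I * (x : ℂ))

/-- the polynomial `∑_{j < k} q_j x^j` -/
def pol {k : ℕ} (q : Fin k → ℝ) (x : ℝ) : ℝ := ∑ j : Fin k, q j * x ^ (j : ℕ)

/-- package M (moments of sums of independent bounded complex variables); it is `S_F3` of project VP -/
def S_M : Prop := ∀ m : ℕ, ∃ C : ℝ, 0 < C ∧ ∀ (Ω : Type) [MeasurableSpace Ω] (P : Measure Ω)
  [IsProbabilityMeasure P] (Y : ℕ → Ω → ℂ), (∀ n, Measurable (Y n)) → iIndepFun Y P → (∀ n ω, ‖Y n ω‖ ≤ 1) →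
  ∀ F : Finset ℕ, ∫ ω, ‖∑ n ∈ F, (Y n ω - ∫ ω', Y n ω' ∂P)‖ ^ (2 * m) ∂P ≤ C * (F.card : ℝ) ^ m

/-- package FL (from `S_M`): uniform fluctuations of exponential sums with polynomial phases at independent
random points `n + X n`, `0 ≤ X n ≤ 1` -/
def S_FL : Prop := ∀ (Ω : Type) [MeasurableSpace Ω] (P : Measure Ω) [IsProbabilityMeasure P]
  (X : ℕ → Ω → ℝ), (∀ n, Measurable (X n)) → iIndepFun X P → (∀ n ω, 0 ≤ X n ω ∧ X n ω ≤ 1) →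
  ∀ (k D : ℕ) (η : ℝ), 0 < η → ∀ᵐ ω ∂P, ∃ K : ℝ, ∀ N a a' b' : ℕ, 1 ≤ N → N ≤ a → a ≤ a' → a' ≤ b' →
    b' ≤ 2 * N → ∀ q : Fin k → ℝ, (∀ j, |q j| ≤ (N : ℝ) ^ D) →
    ‖∑ n ∈ Finset.Icc a' b', (ee (pol q ((n : ℝ) + X n ω - a)) -
        ∫ ω', ee (pol q ((n : ℝ) + X n ω' - a)) ∂P)‖ ≤
      K * (((b' : ℝ) - a' + 1) ^ (1 / 2 : ℝ) * (N : ℝ) ^ η)

/-- package FLUC (from `S_FL`): uniform fluctuations for all admissible functions -/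
def S_FLUC : Prop := ∀ (Ω : Type) [MeasurableSpace Ω] (P : Measure Ω) [IsProbabilityMeasure P]
  (X : ℕ → Ω → ℝ), (∀ n, Measurable (X n)) → iIndepFun X P → (∀ n ω, 0 ≤ X n ω ∧ X n ω ≤ 1) →
  ∀ ε : ℝ, 0 < ε → ∃ k : ℕ, ∀ M : ℕ, ∀ᵐ ω ∂P, ∃ K : ℝ, ∀ (N N' F : ℝ) (f : ℝ → ℝ),
    2 ≤ N → N ≤ N' → N' ≤ 2 * N → N ≤ F → ContDiffOn ℝ (⊤ : ℕ∞) f (Set.Icc N (2 * N)) →
    (∀ j : ℕ, j ≤ k → ∀ x ∈ Set.Icc N (2 * N),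
      |iteratedDerivWithin j f (Set.Icc N (2 * N)) x| ≤ M * F / N ^ j) →
    ‖∑ n ∈ Finset.Icc ⌈N⌉₊ ⌊N'⌋₊, (ee (f ((n : ℝ) + X n ω)) - ∫ ω', ee (f ((n : ℝ) + X n ω')) ∂P)‖ ≤
      K * N ^ (1 / 2 : ℝ) * F ^ ε

/-- package BUMP: the scaled densities have absolutely summable Fourier series -/
def S_BUMP : Prop := ∀ ρ : ℝ → ℝ, ContDiff ℝ 2 ρ → (∀ u, u ≤ 0 → ρ u = 0) → (∀ u, 1 ≤ u → ρ u = 0) →
  ∃ C : ℝ, 0 < C ∧ ∀ δ : ℝ, 0 < δ → δ ≤ 1 → ∃ c : ℤ → ℂ, (Summable fun h : ℤ => ‖c h‖) ∧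
    ∑' h : ℤ, ‖c h‖ ≤ C / δ ∧
    ∀ u ∈ Set.Icc (0 : ℝ) 1, ((δ⁻¹ * ρ (u / δ) : ℝ) : ℂ) = ∑' h : ℤ, c h * ee (h * u)

/-- package MEAN (from `S_BUMP`): the mean of the exponential sum -/
def S_MEAN : Prop := ∀ ρ : ℝ → ℝ, ContDiff ℝ 2 ρ → (∀ u, u ≤ 0 → ρ u = 0) → (∀ u, 1 ≤ u → ρ u = 0) →
  ∃ C : ℝ, 0 < C ∧ ∀ (δ lam : ℝ) (f f1 f2 : ℝ → ℝ) (a b : ℕ), 0 < δ → δ ≤ 1 → 0 < lam → a ≤ b →
    (∀ x ∈ Set.Icc (a : ℝ) (b + 1), HasDerivWithinAt f (f1 x) (Set.Icc (a : ℝ) (b + 1)) x) →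
    (∀ x ∈ Set.Icc (a : ℝ) (b + 1), HasDerivWithinAt f1 (f2 x) (Set.Icc (a : ℝ) (b + 1)) x) →
    ContinuousOn f2 (Set.Icc (a : ℝ) (b + 1)) → (∀ x ∈ Set.Icc (a : ℝ) (b + 1), lam ≤ |f2 x|) →
    ‖∑ n ∈ Finset.Icc a b, ∫ u in (0 : ℝ)..1, ((δ⁻¹ * ρ (u / δ) : ℝ) : ℂ) * ee (f ((n : ℝ) + u))‖ ≤
      C / δ * lam ^ (-(1 / 2) : ℝ)

/-- the law with density `ρ` -/
def lawD (ρ : ℝ → ℝ) : Measure ℝ := volume.withDensity fun u => ENNReal.ofReal (ρ u)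

/-- `f` is admissible on `[N, 2N]` with parameter `F` and constants `c`, `C` -/
def Adm (c C : ℕ → ℝ) (N F : ℝ) (f : ℝ → ℝ) : Prop :=
  ContDiffOn ℝ (⊤ : ℕ∞) f (Set.Icc N (2 * N)) ∧ ∀ j : ℕ, ∀ x ∈ Set.Icc N (2 * N),
    c j * F / N ^ j ≤ |iteratedDerivWithin j f (Set.Icc N (2 * N)) x| ∧
    |iteratedDerivWithin j f (Set.Icc N (2 * N)) x| ≤ C j * F / N ^ j

/-- package MAIN (from `S_FLUC`, `S_MEAN`) -/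
def S_MAIN : Prop := ∀ ρ : ℝ → ℝ, ContDiff ℝ 2 ρ → (∀ u, 0 ≤ ρ u) → (∀ u, u ≤ 0 → ρ u = 0) →
  (∀ u, 1 ≤ u → ρ u = 0) → ∫ u, ρ u = 1 → ∀ d : ℕ → ℝ, (∀ l, 0 < d l ∧ d l ≤ 1) →
  ∀ (Ω : Type) [MeasurableSpace Ω] (P : Measure Ω) [IsProbabilityMeasure P] (Y : ℕ → Ω → ℝ),
  (∀ n, Measurable (Y n)) → iIndepFun Y P → (∀ n, P.map (Y n) = lawD ρ) →
  ∀ᵐ ω ∂P, ∀ ε : ℝ, 0 < ε → ∀ c C : ℕ → ℝ, (∀ j, 0 < c j) → (∀ j, 0 < C j) → ∃ K : ℝ,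
    ∀ (N N' F : ℝ) (f : ℝ → ℝ), 2 ≤ N → N ≤ N' → N' ≤ 2 * N → N ≤ F → Adm c C N F f →
    ‖∑ n ∈ Finset.Icc ⌈N⌉₊ ⌊N'⌋₊, ee (f ((n : ℝ) + d (Nat.log 2 n) * Y n ω))‖ ≤
      K * F ^ ε * (N ^ (1 / 2 : ℝ) +
        N / (min (d (Nat.log 2 ⌈N⌉₊)) (d (Nat.log 2 ⌈N⌉₊ + 1)) * F ^ (1 / 2 : ℝ)))

end

end Pool.Agent.U501.EP
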