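import Mathlib
import Pool.Agent.U501.EP.Stm

set_option autoImplicit false

/-!
# Project EP, package FLUC: uniform fluctuations for all admissible functions
-/

namespace Pool.Agent.U501.EP

open MeasureTheory ProbabilityTheory Finset

theorem norm_ee (x : ℝ) : ‖ee x‖ = 1 := by
  unfold ee
  rw [show 2 * (Real.pi : ℂ) * Complex.I * (x : ℂ) = ((2 * Real.pi * x : ℝ) : ℂ) * Complex.I by
    push_cast; ring]
  exact Complex.norm_exp_ofReal_mul_I _

theorem ee_add (x y : ℝ) : ee (x + y) = ee x * ee y := by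
  unfold ee
  rw [← Complex.exp_add]
  congr 1
  push_cast
  ring

theorem ee_sub_le (x y : ℝ) : ‖ee x - ee y‖ ≤ 2 * Real.pi * |x - y| := by
  have h1 : ee x = ee y * ee (x - y) := by rw [← ee_add]; congr 1; ring
  have h2 : ee x - ee y = ee y * (ee (x - y) - 1) := by rw [h1]; ring
  rw [h2, norm_mul, norm_ee, one_mul]
  have h3 : ee (x - y) = Complex.exp (Complex.I * ((2 * Real.pi * (x - y) : ℝ) : ℂ)) := by
    unfold ee
    congr 1
    push_cast
    ring
  rw [h3]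
  refine Real.norm_exp_I_mul_ofReal_sub_one_le.trans ?_
  rw [Real.norm_eq_abs, abs_mul, abs_of_pos Real.two_pi_pos]

theorem continuous_ee : Continuous ee := by
  unfold ee
  fun_prop

theorem continuous_pol {k : ℕ} (q : Fin k → ℝ) : Continuous (pol q) := by
  unfold pol
  fun_prop

/-- Taylor's formula at an interior base point. -/
theorem taylor_pol (N : ℝ) (f : ℝ → ℝ) (hf : ContDiffOn ℝ (⊤ : ℕ∞) f (Set.Icc N (2 * N)))
    (k : ℕ) (hk : 1 ≤ k) (C : ℝ)
    (hC : ∀ x ∈ Set.Icc N (2 * N), |iteratedDerivWithin k f (Set.Icc N (2 * N)) x| ≤ C)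
    (a x : ℝ) (haN : N ≤ a) (hax : a ≤ x) (ha2 : a < 2 * N) (hx : x ≤ 2 * N) :
    |f x - pol (fun j : Fin k => iteratedDerivWithin (j : ℕ) f (Set.Icc N (2 * N)) a /
      (Nat.factorial j : ℝ)) (x - a)| ≤ C * (x - a) ^ k := by
  obtain ⟨n, rfl⟩ : ∃ n, k = n + 1 := ⟨k - 1, by omega⟩
  have hsub : Set.Icc a (2 * N) ⊆ Set.Icc N (2 * N) := Set.Icc_subset_Icc_left haN
  have huN : UniqueDiffOn ℝ (Set.Icc N (2 * N)) := uniqueDiffOn_Icc (lt_of_le_of_lt haN ha2)
  have hua : UniqueDiffOn ℝ (Set.Icc a (2 * N)) := uniqueDiffOn_Icc ha2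
  have hder : ∀ (j : ℕ), ∀ y ∈ Set.Icc a (2 * N),
      iteratedDerivWithin j f (Set.Icc a (2 * N)) y =
        iteratedDerivWithin j f (Set.Icc N (2 * N)) y := by
    intro j y hy
    have h1 : ContDiffOn ℝ (j : ℕ) f (Set.Icc N (2 * N)) :=
      hf.of_le (by exact_mod_cast le_top)
    rw [iteratedDerivWithin_eq_iteratedFDerivWithin, iteratedDerivWithin_eq_iteratedFDerivWithin,
      iteratedFDerivWithin_subset hsub hua huN h1 hy]
  have hf' : ContDiffOn ℝ ((n : ℕ) + 1) f (Set.Icc a (2 * N)) :=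
    (hf.mono hsub).of_le (by exact_mod_cast le_top)
  have hb := taylor_mean_remainder_bound (f := f) (a := a) (b := 2 * N) (C := C) (x := x) (n := n)
    ha2.le hf' ⟨hax, hx⟩ (fun y hy => by
      rw [hder (n + 1) y hy, Real.norm_eq_abs]
      exact hC y (hsub hy))
  rw [taylor_within_apply, Real.norm_eq_abs] at hb
  have hpol : pol (fun j : Fin (n + 1) => iteratedDerivWithin (j : ℕ) f (Set.Icc N (2 * N)) a /
      (Nat.factorial j : ℝ)) (x - a) = ∑ k ∈ Finset.range (n + 1),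
        ((Nat.factorial k : ℝ)⁻¹ * (x - a) ^ k) • iteratedDerivWithin k f (Set.Icc a (2 * N)) a := by
    unfold pol
    rw [Finset.sum_range]
    refine Finset.sum_congr rfl fun j _ => ?_
    rw [hder j a ⟨le_rfl, ha2.le⟩, smul_eq_mul]
    ring
  rw [hpol]
  refine hb.trans ?_
  have hC0 : 0 ≤ C := (abs_nonneg _).trans (hC a ⟨haN, ha2.le⟩)
  have hxa : 0 ≤ (x - a) ^ (n + 1) := pow_nonneg (by linarith) _
  have h1 : (1 : ℝ) ≤ (Nat.factorial n : ℝ) := by exact_mod_cast Nat.factorial_pos n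
  exact div_le_self (mul_nonneg hC0 hxa) h1

/-- Adding up blocks. -/
theorem blocks (Z : ℕ → ℂ) (L : ℕ) (G : ℝ) (hG : 0 ≤ G) (n0 n2 : ℕ) (hL : 1 ≤ L)
    (h : ∀ a' b', n0 ≤ a' → a' ≤ b' → b' ≤ n2 → b' + 1 ≤ a' + L → ‖∑ n ∈ Finset.Icc a' b', Z n‖ ≤ G) :
    ∀ r a' : ℕ, n0 ≤ a' → n2 + 1 ≤ a' + r * L → ‖∑ n ∈ Finset.Icc a' n2, Z n‖ ≤ r * G := by
  intro r
  induction r with
  | zero =>
    intro a' _ h2
    rw [Finset.Icc_eq_empty (by omega)]
    simp
  | succ r ih =>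
    intro a' h1 h2
    by_cases h3 : n2 + 1 ≤ a' + L
    · by_cases h4 : a' ≤ n2
      · refine (h a' n2 h1 h4 le_rfl h3).trans ?_
        push_cast
        nlinarith [mul_nonneg (Nat.cast_nonneg (α := ℝ) r) hG]
      · rw [Finset.Icc_eq_empty (by omega)]
        simp only [Finset.sum_empty, norm_zero]
        positivity
    · have h5 : Finset.Icc a' n2 = Finset.Icc a' (a' + L - 1) ∪ Finset.Icc (a' + L) n2 := by
        ext x
        simp only [Finset.mem_Icc, Finset.mem_union]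
        omega
      have h6 : Disjoint (Finset.Icc a' (a' + L - 1)) (Finset.Icc (a' + L) n2) := by
        rw [Finset.disjoint_left]
        intro x hx hx'
        simp only [Finset.mem_Icc] at hx hx'
        omega
      rw [h5, Finset.sum_union h6]
      refine (norm_add_le _ _).trans ?_
      have h7 := h a' (a' + L - 1) h1 (by omega) (by omega) (by omega)
      have h8 := ih (a' + L) (by omega) (by rw [Nat.add_mul] at h2; omega)
      push_cast
      linarith

theorem norm_integral_ee_le {Ω : Type} [MeasurableSpace Ω] (P : Measure Ω) [IsProbabilityMeasure P]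
    (g : Ω → ℝ) : ‖∫ ω, ee (g ω) ∂P‖ ≤ 1 := by
  have := norm_integral_le_of_norm_le_const (μ := P) (f := fun ω => ee (g ω)) (C := 1)
    (Filter.Eventually.of_forall fun ω => (norm_ee _).le)
  simpa using this

theorem card_le (N N' : ℝ) (hN : 2 ≤ N) (h : N' ≤ 2 * N) (hNN : N ≤ N') :
    (((Finset.Icc ⌈N⌉₊ ⌊N'⌋₊).card : ℕ) : ℝ) ≤ 2 * N := by
  rw [Nat.card_Icc]
  have h1 : (⌊N'⌋₊ : ℝ) ≤ N' := Nat.floor_le (by linarith)
  have h2 : N ≤ (⌈N⌉₊ : ℝ) := Nat.le_ceil N
  rcases le_total ⌈N⌉₊ (⌊N'⌋₊ + 1) with h3 | h3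
  · rw [Nat.cast_sub h3]
    push_cast
    linarith
  · rw [Nat.sub_eq_zero_of_le h3]
    push_cast
    linarith

/-- Package FLUC. -/
theorem t_FLUC : S_FL → S_FLUC := by
  intro hFL Ω _ P _ X hXm hXi hX01 ε hε
  classical
  obtain ⟨η, hη⟩ : ∃ η : ℝ, η = min (ε / 2) (1 / 2) := ⟨_, rfl⟩
  have hη0 : 0 < η := by rw [hη]; exact lt_min (by linarith) (by norm_num)
  have hη1 : η ≤ 1 / 2 := by rw [hη]; exact min_le_right _ _
  have hηε : η ≤ ε / 2 := by rw [hη]; exact min_le_left _ _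
  obtain ⟨A, hA⟩ : ∃ A : ℕ, 1 / (2 * ε) ≤ (A : ℝ) := ⟨_, Nat.le_ceil _⟩
  obtain ⟨k, hk⟩ : ∃ k : ℕ, ((A : ℝ) + 1) / η ≤ (k : ℝ) := ⟨_, Nat.le_ceil _⟩
  have hk' : (A : ℝ) + 1 ≤ k * η := by rwa [div_le_iff₀ hη0] at hk
  have hk1 : 1 ≤ k := by
    rcases Nat.eq_zero_or_pos k with h | h
    · exfalso
      rw [h] at hk'
      have : (0 : ℝ) ≤ A := Nat.cast_nonneg A
      simp at hk'
      linarith
    · exact h
  refine ⟨k, fun M => ?_⟩
  filter_upwards [hFL Ω P X hXm hXi hX01 k (A + M) η hη0] with ω hω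
  obtain ⟨K0, hK0⟩ := hω
  obtain ⟨E0, hE0⟩ : ∃ E0 : ℝ, E0 = 2 * Real.pi * (M * 2 ^ k) := ⟨_, rfl⟩
  have hE0n : 0 ≤ E0 := by rw [hE0]; positivity
  obtain ⟨K1, hK1⟩ : ∃ K1 : ℝ, K1 = 2 * |K0| + 4 * E0 := ⟨_, rfl⟩
  have hK1n : 0 ≤ K1 := by rw [hK1]; positivity
  refine ⟨4 + 4 * K1 + 2, ?_⟩
  intro N N' F f hN hNN' hN'2 hNF hf hbd
  have hN0 : 0 < N := by linarith
  have hN1 : 1 ≤ N := by linarith
  have hF0 : 0 < F := by linarith
  have hF1 : 1 ≤ F := by linarith
  set Z : ℕ → ℂ := fun n => ee (f ((n : ℝ) + X n ω)) - ∫ ω', ee (f ((n : ℝ) + X n ω')) ∂P with hZ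
  have hZ2 : ∀ n, ‖Z n‖ ≤ 2 := by
    intro n
    refine (norm_sub_le _ _).trans ?_
    rw [norm_ee]
    have := norm_integral_ee_le P (fun ω' => f ((n : ℝ) + X n ω'))
    linarith
  have hNh1 : (1 : ℝ) ≤ N ^ (1 / 2 : ℝ) := Real.one_le_rpow hN1 (by norm_num)
  have hFε1 : (1 : ℝ) ≤ F ^ ε := Real.one_le_rpow hF1 hε.le
  have hNF1 : (1 : ℝ) ≤ N ^ (1 / 2 : ℝ) * F ^ ε := one_le_mul_of_one_le_of_one_le hNh1 hFε1
  change ‖∑ n ∈ Finset.Icc ⌈N⌉₊ ⌊N'⌋₊, Z n‖ ≤ (4 + 4 * K1 + 2) * N ^ (1 / 2 : ℝ) * F ^ ε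
  by_cases hFA : F ≤ N ^ (A : ℝ)
  swap
  · -- trivial range
    push Not at hFA
    have h1 : N ^ (1 / 2 : ℝ) ≤ F ^ ε := by
      have h2 : N ^ (1 / 2 : ℝ) ≤ N ^ ((A : ℝ) * ε) := by
        apply Real.rpow_le_rpow_of_exponent_le hN1
        rw [div_le_iff₀ (by positivity)] at hA
        linarith
      refine h2.trans ?_
      rw [Real.rpow_mul hN0.le]
      exact Real.rpow_le_rpow (by positivity) hFA.le hε.le
    have h3 : ‖∑ n ∈ Finset.Icc ⌈N⌉₊ ⌊N'⌋₊, Z n‖ ≤ 2 * (2 * N) := by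
      refine (norm_sum_le _ _).trans ?_
      refine (Finset.sum_le_sum fun n _ => hZ2 n).trans ?_
      rw [Finset.sum_const, nsmul_eq_mul]
      have := card_le N N' hN hN'2 hNN'
      linarith
    have h4 : N = N ^ (1 / 2 : ℝ) * N ^ (1 / 2 : ℝ) := by
      rw [← Real.rpow_add hN0]
      norm_num
    have h5 : N ≤ N ^ (1 / 2 : ℝ) * F ^ ε := by
      conv_lhs => rw [h4]
      exact mul_le_mul_of_nonneg_left h1 (by positivity)
    calc ‖∑ n ∈ Finset.Icc ⌈N⌉₊ ⌊N'⌋₊, Z n‖ ≤ 2 * (2 * N) := h3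
      _ ≤ 4 * (N ^ (1 / 2 : ℝ) * F ^ ε) := by linarith
      _ ≤ (4 + 4 * K1 + 2) * (N ^ (1 / 2 : ℝ) * F ^ ε) := by
          apply mul_le_mul_of_nonneg_right _ (by positivity)
          linarith
      _ = (4 + 4 * K1 + 2) * N ^ (1 / 2 : ℝ) * F ^ ε := by ring
  · -- main range
    obtain ⟨n0, hn0⟩ : ∃ n0 : ℕ, n0 = ⌈N⌉₊ := ⟨_, rfl⟩
    obtain ⟨n1, hn1⟩ : ∃ n1 : ℕ, n1 = ⌊N'⌋₊ := ⟨_, rfl⟩
    obtain ⟨n2, hn2⟩ : ∃ n2 : ℕ, n2 = min n1 (⌊2 * N⌋₊ - 1) := ⟨_, rfl⟩
    rw [← hn0, ← hn1]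
    have hn0l : N ≤ n0 := by rw [hn0]; exact Nat.le_ceil N
    have hn0u : (n0 : ℝ) < N + 1 := by rw [hn0]; exact Nat.ceil_lt_add_one hN0.le
    have hn01 : 1 ≤ n0 := by
      have : (1 : ℝ) ≤ n0 := by linarith
      exact_mod_cast this
    have hfl : (⌊2 * N⌋₊ : ℝ) ≤ 2 * N := Nat.floor_le (by linarith)
    have hn1fl : n1 ≤ ⌊2 * N⌋₊ := by rw [hn1]; exact Nat.floor_le_floor hN'2
    have hfl1 : 1 ≤ ⌊2 * N⌋₊ := by
      apply Nat.le_floor
      push_cast
      linarith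
    have hn2u : (n2 : ℝ) + 1 ≤ 2 * N := by
      have h1 : n2 + 1 ≤ ⌊2 * N⌋₊ := by
        have := min_le_right n1 (⌊2 * N⌋₊ - 1)
        omega
      have h2 : ((n2 + 1 : ℕ) : ℝ) ≤ (⌊2 * N⌋₊ : ℝ) := by exact_mod_cast h1
      push_cast at h2
      linarith
    obtain ⟨L, hL⟩ : ∃ L : ℕ, L = ⌈N ^ (1 - η)⌉₊ := ⟨_, rfl⟩
    have hNη : (1 : ℝ) ≤ N ^ (1 - η) := Real.one_le_rpow hN1 (by linarith)
    have hLl : N ^ (1 - η) ≤ L := by rw [hL]; exact Nat.le_ceil _
    have hLu : (L : ℝ) ≤ 2 * N ^ (1 - η) := by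
      have : (L : ℝ) < N ^ (1 - η) + 1 := by rw [hL]; exact Nat.ceil_lt_add_one (by positivity)
      linarith
    have hL1 : 1 ≤ L := by
      have : (1 : ℝ) ≤ L := hNη.trans hLl
      exact_mod_cast this
    have hL1' : (1 : ℝ) ≤ L := by exact_mod_cast hL1
    have hL2N : (L : ℝ) ≤ 2 * N := by
      refine hLu.trans ?_
      have : N ^ (1 - η) ≤ N ^ (1 : ℝ) := Real.rpow_le_rpow_of_exponent_le hN1 (by linarith)
      rw [Real.rpow_one] at this
      linarith
    have hNη1 : (1 : ℝ) ≤ N ^ η := Real.one_le_rpow hN1 hη0.le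
    have hLh1 : (1 : ℝ) ≤ (L : ℝ) ^ (1 / 2 : ℝ) := Real.one_le_rpow hL1' (by norm_num)
    -- the key estimate for the Taylor remainder
    have hkey : (M * F / N ^ k) * (L : ℝ) ^ k ≤ M * 2 ^ k / N := by
      have h1 : (L : ℝ) ^ k ≤ 2 ^ k * N ^ ((1 - η) * k) := by
        calc (L : ℝ) ^ k ≤ (2 * N ^ (1 - η)) ^ k := pow_le_pow_left₀ (by positivity) hLu k
          _ = 2 ^ k * N ^ ((1 - η) * k) := by
              rw [mul_pow, Real.rpow_mul hN0.le, Real.rpow_natCast]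
      have h2 : F / N ^ k * N ^ ((1 - η) * k) ≤ 1 / N := by
        have h3 : (N : ℝ) ^ k = N ^ (k : ℝ) := (Real.rpow_natCast N k).symm
        rw [h3]
        calc F / N ^ (k : ℝ) * N ^ ((1 - η) * k)
            ≤ N ^ (A : ℝ) / N ^ (k : ℝ) * N ^ ((1 - η) * k) := by gcongr
          _ = N ^ ((A : ℝ) - k + (1 - η) * k) := by
              rw [Real.rpow_add hN0, Real.rpow_sub hN0]
          _ ≤ N ^ (-1 : ℝ) := by
              apply Real.rpow_le_rpow_of_exponent_le hN1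
              nlinarith
          _ = 1 / N := by rw [Real.rpow_neg_one, one_div]
      calc (M * F / N ^ k) * (L : ℝ) ^ k
          ≤ (M * F / N ^ k) * (2 ^ k * N ^ ((1 - η) * k)) := by gcongr
        _ = M * 2 ^ k * (F / N ^ k * N ^ ((1 - η) * k)) := by ring
        _ ≤ M * 2 ^ k * (1 / N) := by gcongr
        _ = M * 2 ^ k / N := by ring
    -- one block
    have hblock : ∀ a' b' : ℕ, n0 ≤ a' → a' ≤ b' → b' ≤ n2 → b' + 1 ≤ a' + L →
        ‖∑ n ∈ Finset.Icc a' b', Z n‖ ≤ K1 * ((L : ℝ) ^ (1 / 2 : ℝ) * N ^ η) := by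
      intro a' b' ha0 hab hb2 hbL
      have haN : N ≤ (a' : ℝ) := hn0l.trans (by exact_mod_cast ha0)
      have hb2N : (b' : ℝ) + 1 ≤ 2 * N := by
        have : (b' : ℝ) ≤ n2 := by exact_mod_cast hb2
        linarith
      have haltb : (a' : ℝ) ≤ b' := by exact_mod_cast hab
      have ha2N : (a' : ℝ) < 2 * N := by linarith
      have hbL' : (b' : ℝ) + 1 ≤ a' + L := by exact_mod_cast hbL
      set q : Fin k → ℝ := fun j => iteratedDerivWithin (j : ℕ) f (Set.Icc N (2 * N)) (a' : ℝ) /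
        (Nat.factorial j : ℝ) with hq
      have hqb : ∀ j, |q j| ≤ (n0 : ℝ) ^ (A + M) := by
        intro j
        have h1 : |iteratedDerivWithin (j : ℕ) f (Set.Icc N (2 * N)) (a' : ℝ)| ≤ M * F / N ^ (j : ℕ) :=
          hbd j j.2.le a' ⟨haN, ha2N.le⟩
        have h2 : (1 : ℝ) ≤ (Nat.factorial j : ℝ) := by exact_mod_cast Nat.factorial_pos _
        have h3 : |q j| ≤ M * F / N ^ (j : ℕ) := by
          rw [hq]
          simp only
          rw [abs_div, abs_of_pos (by linarith : (0 : ℝ) < (Nat.factorial j : ℝ))]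
          exact (div_le_self (abs_nonneg _) h2).trans h1
        have h4 : M * F / N ^ (j : ℕ) ≤ M * F :=
          div_le_self (by positivity) (one_le_pow₀ hN1)
        have h5 : (M : ℝ) ≤ (n0 : ℝ) ^ M := by
          have h6 : (M : ℝ) ≤ 2 ^ M := by exact_mod_cast (Nat.lt_two_pow_self (n := M)).le
          refine h6.trans (pow_le_pow_left₀ (by norm_num) (by linarith) M)
        have h7 : F ≤ (n0 : ℝ) ^ A := by
          refine hFA.trans ?_
          rw [Real.rpow_natCast]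
          exact pow_le_pow_left₀ hN0.le hn0l A
        calc |q j| ≤ M * F := h3.trans h4
          _ ≤ (n0 : ℝ) ^ M * (n0 : ℝ) ^ A := by gcongr
          _ = (n0 : ℝ) ^ (A + M) := by rw [pow_add, mul_comm]
      set Zp : ℕ → ℂ := fun n => ee (pol q ((n : ℝ) + X n ω - a')) -
        ∫ ω', ee (pol q ((n : ℝ) + X n ω' - a')) ∂P with hZp
      have hpt : ∀ n ∈ Finset.Icc a' b', ∀ t : ℝ, 0 ≤ t → t ≤ 1 →
          ‖ee (f ((n : ℝ) + t)) - ee (pol q ((n : ℝ) + t - a'))‖ ≤ E0 / N := by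
        intro n hn t ht0 ht1
        rw [Finset.mem_Icc] at hn
        have hn1' : (a' : ℝ) ≤ n := by exact_mod_cast hn.1
        have hn2' : (n : ℝ) ≤ b' := by exact_mod_cast hn.2
        have h1 := taylor_pol N f hf k hk1 (M * F / N ^ k) (fun x hx => hbd k le_rfl x hx)
          (a' : ℝ) ((n : ℝ) + t) haN (by linarith) ha2N (by linarith)
        have h2 : (M * F / N ^ k) * ((n : ℝ) + t - a') ^ k ≤ M * 2 ^ k / N := by
          refine le_trans ?_ hkey
          apply mul_le_mul_of_nonneg_left _ (by positivity)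
          exact pow_le_pow_left₀ (by linarith) (by linarith) k
        refine (ee_sub_le _ _).trans ?_
        rw [hE0, mul_div_assoc]
        exact mul_le_mul_of_nonneg_left (h1.trans h2) Real.two_pi_pos.le
      have hdiff : ∀ n ∈ Finset.Icc a' b', ‖Z n - Zp n‖ ≤ 2 * (E0 / N) := by
        intro n hn
        have hnn := hn
        rw [Finset.mem_Icc] at hn
        have hn1' : (a' : ℝ) ≤ n := by exact_mod_cast hn.1
        have hn2' : (n : ℝ) ≤ b' := by exact_mod_cast hn.2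
        -- integrability
        have hi1 : Integrable (fun ω' => ee (pol q ((n : ℝ) + X n ω' - a'))) P := by
          refine Integrable.of_bound (C := 1) ?_ (Filter.Eventually.of_forall fun ω' => (norm_ee _).le)
          apply Measurable.aestronglyMeasurable
          exact (continuous_ee.comp (continuous_pol q)).measurable.comp
            (((hXm n).const_add (n : ℝ)).sub_const _)
        have hi2 : Integrable (fun ω' => ee (f ((n : ℝ) + X n ω'))) P := by
          refine Integrable.of_bound (C := 1) ?_ (Filter.Eventually.of_forall fun ω' => (norm_ee _).le)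
          apply Measurable.aestronglyMeasurable
          have hcont : Continuous (Set.IccExtend (h := (by linarith : N ≤ 2 * N))
              (fun x : Set.Icc N (2 * N) => f x)) :=
            (continuousOn_iff_continuous_domRestrict.mp hf.continuousOn).Icc_extend'
          have heq : (fun ω' => ee (f ((n : ℝ) + X n ω'))) = fun ω' =>
              ee (Set.IccExtend (h := (by linarith : N ≤ 2 * N))
                (fun x : Set.Icc N (2 * N) => f x) ((n : ℝ) + X n ω')) := by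
            funext ω'
            rw [Set.IccExtend_of_mem]
            have := hX01 n ω'
            exact ⟨by linarith [this.1], by linarith [this.2]⟩
          rw [heq]
          exact (continuous_ee.comp hcont).measurable.comp ((hXm n).const_add (n : ℝ))
        have h3 : Z n - Zp n = (ee (f ((n : ℝ) + X n ω)) - ee (pol q ((n : ℝ) + X n ω - a'))) -
            ∫ ω', (ee (f ((n : ℝ) + X n ω')) - ee (pol q ((n : ℝ) + X n ω' - a'))) ∂P := by
          rw [integral_sub hi2 hi1]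
          simp only [hZ, hZp]
          ring
        rw [h3]
        refine (norm_sub_le _ _).trans ?_
        have h4 := hpt n hnn (X n ω) (hX01 n ω).1 (hX01 n ω).2
        have h5 : ‖∫ ω', (ee (f ((n : ℝ) + X n ω')) - ee (pol q ((n : ℝ) + X n ω' - a'))) ∂P‖ ≤
            E0 / N := by
          have := norm_integral_le_of_norm_le_const (μ := P) (f := fun ω' =>
            ee (f ((n : ℝ) + X n ω')) - ee (pol q ((n : ℝ) + X n ω' - a'))) (C := E0 / N)
            (Filter.Eventually.of_forall fun ω' => hpt n hnn (X n ω') (hX01 n ω').1 (hX01 n ω').2)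
          simpa using this
        linarith
      have hsum : ‖∑ n ∈ Finset.Icc a' b', (Z n - Zp n)‖ ≤ 4 * E0 := by
        refine (norm_sum_le _ _).trans ((Finset.sum_le_sum hdiff).trans ?_)
        rw [Finset.sum_const, nsmul_eq_mul, Nat.card_Icc]
        have h6 : ((b' + 1 - a' : ℕ) : ℝ) ≤ L := by
          have : b' + 1 - a' ≤ L := by omega
          exact_mod_cast this
        calc ((b' + 1 - a' : ℕ) : ℝ) * (2 * (E0 / N)) ≤ (2 * N) * (2 * (E0 / N)) := by
              apply mul_le_mul_of_nonneg_right (h6.trans hL2N) (by positivity)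
          _ = 4 * E0 := by field_simp; ring
      have hFLb := hK0 n0 a' a' b' hn01 ha0 le_rfl hab (by
        have h1 : (b' : ℝ) ≤ 2 * n0 := by linarith
        exact_mod_cast h1) q hqb
      have hsumZp : ‖∑ n ∈ Finset.Icc a' b', Zp n‖ ≤ 2 * |K0| * ((L : ℝ) ^ (1 / 2 : ℝ) * N ^ η) := by
        refine hFLb.trans ?_
        have h1 : ((b' : ℝ) - a' + 1) ^ (1 / 2 : ℝ) ≤ (L : ℝ) ^ (1 / 2 : ℝ) :=
          Real.rpow_le_rpow (by linarith) (by linarith) (by norm_num)
        have h2 : (n0 : ℝ) ^ η ≤ 2 * N ^ η := by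
          calc (n0 : ℝ) ^ η ≤ (2 * N) ^ η := Real.rpow_le_rpow (by positivity) (by linarith) hη0.le
            _ = 2 ^ η * N ^ η := Real.mul_rpow (by norm_num) hN0.le
            _ ≤ 2 * N ^ η := by
                apply mul_le_mul_of_nonneg_right _ (by positivity)
                calc (2 : ℝ) ^ η ≤ 2 ^ (1 : ℝ) :=
                      Real.rpow_le_rpow_of_exponent_le (by norm_num) (by linarith)
                  _ = 2 := Real.rpow_one 2
        have h0 : 0 ≤ ((b' : ℝ) - a' + 1) ^ (1 / 2 : ℝ) := Real.rpow_nonneg (by linarith) _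
        calc K0 * (((b' : ℝ) - a' + 1) ^ (1 / 2 : ℝ) * (n0 : ℝ) ^ η)
            ≤ |K0| * (((b' : ℝ) - a' + 1) ^ (1 / 2 : ℝ) * (n0 : ℝ) ^ η) := by
              apply mul_le_mul_of_nonneg_right (le_abs_self K0) (by positivity)
          _ ≤ |K0| * ((L : ℝ) ^ (1 / 2 : ℝ) * (2 * N ^ η)) := by gcongr
          _ = 2 * |K0| * ((L : ℝ) ^ (1 / 2 : ℝ) * N ^ η) := by ring
      have hone : (1 : ℝ) ≤ (L : ℝ) ^ (1 / 2 : ℝ) * N ^ η :=
        one_le_mul_of_one_le_of_one_le hLh1 hNη1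
      have hsplit : ∑ n ∈ Finset.Icc a' b', Z n =
          ∑ n ∈ Finset.Icc a' b', (Z n - Zp n) + ∑ n ∈ Finset.Icc a' b', Zp n := by
        rw [← Finset.sum_add_distrib]
        exact Finset.sum_congr rfl fun n _ => by ring
      rw [hsplit]
      refine (norm_add_le _ _).trans ?_
      rw [hK1]
      nlinarith
    -- all blocks
    obtain ⟨r, hr⟩ : ∃ r : ℕ, r = ⌈N ^ η⌉₊ := ⟨_, rfl⟩
    have hrl : N ^ η ≤ r := by rw [hr]; exact Nat.le_ceil _
    have hru : (r : ℝ) ≤ 2 * N ^ η := by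
      have : (r : ℝ) < N ^ η + 1 := by rw [hr]; exact Nat.ceil_lt_add_one (by positivity)
      linarith
    have hrL : n2 + 1 ≤ n0 + r * L := by
      have h1 : N ≤ (r : ℝ) * L := by
        calc N = N ^ η * N ^ (1 - η) := by
              rw [← Real.rpow_add hN0]
              simp
          _ ≤ r * L := mul_le_mul hrl hLl (by positivity) (by positivity)
      have h2 : ((n2 + 1 : ℕ) : ℝ) ≤ ((n0 + r * L : ℕ) : ℝ) := by
        push_cast
        linarith
      exact_mod_cast h2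
    have hall := blocks Z L (K1 * ((L : ℝ) ^ (1 / 2 : ℝ) * N ^ η)) (by positivity) n0 n2 hL1 hblock
      r n0 le_rfl hrL
    have hmain : (r : ℝ) * (K1 * ((L : ℝ) ^ (1 / 2 : ℝ) * N ^ η)) ≤
        4 * K1 * (N ^ (1 / 2 : ℝ) * F ^ ε) := by
      have h1 : (L : ℝ) ^ (1 / 2 : ℝ) ≤ 2 * N ^ ((1 - η) / 2) := by
        calc (L : ℝ) ^ (1 / 2 : ℝ) ≤ (2 * N ^ (1 - η)) ^ (1 / 2 : ℝ) :=
              Real.rpow_le_rpow (by positivity) hLu (by norm_num)
          _ = 2 ^ (1 / 2 : ℝ) * N ^ ((1 - η) / 2) := by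
              rw [Real.mul_rpow (by norm_num) (by positivity), ← Real.rpow_mul hN0.le]
              congr 2
              ring
          _ ≤ 2 * N ^ ((1 - η) / 2) := by
              apply mul_le_mul_of_nonneg_right _ (by positivity)
              calc (2 : ℝ) ^ (1 / 2 : ℝ) ≤ 2 ^ (1 : ℝ) :=
                    Real.rpow_le_rpow_of_exponent_le (by norm_num) (by norm_num)
                _ = 2 := Real.rpow_one 2
      have h2 : N ^ η * (N ^ ((1 - η) / 2) * N ^ η) ≤ N ^ (1 / 2 : ℝ) * F ^ ε := by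
        calc N ^ η * (N ^ ((1 - η) / 2) * N ^ η) = N ^ (1 / 2 + 3 / 2 * η) := by
              rw [← Real.rpow_add hN0, ← Real.rpow_add hN0]
              congr 1
              ring
          _ ≤ N ^ (1 / 2 + ε) := Real.rpow_le_rpow_of_exponent_le hN1 (by linarith)
          _ = N ^ (1 / 2 : ℝ) * N ^ ε := Real.rpow_add hN0 _ _
          _ ≤ N ^ (1 / 2 : ℝ) * F ^ ε := by
              apply mul_le_mul_of_nonneg_left _ (by positivity)
              exact Real.rpow_le_rpow hN0.le hNF hε.le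
      calc (r : ℝ) * (K1 * ((L : ℝ) ^ (1 / 2 : ℝ) * N ^ η))
          ≤ (2 * N ^ η) * (K1 * ((2 * N ^ ((1 - η) / 2)) * N ^ η)) := by gcongr
        _ = 4 * K1 * (N ^ η * (N ^ ((1 - η) / 2) * N ^ η)) := by ring
        _ ≤ 4 * K1 * (N ^ (1 / 2 : ℝ) * F ^ ε) := by gcongr
    -- the last term
    have hsub : Finset.Icc n0 n2 ⊆ Finset.Icc n0 n1 := by
      apply Finset.Icc_subset_Icc_right
      rw [hn2]
      exact min_le_left _ _
    rw [← Finset.sum_sdiff hsub]
    have hlast : ‖∑ n ∈ Finset.Icc n0 n1 \ Finset.Icc n0 n2, Z n‖ ≤ 2 := by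
      refine (norm_sum_le _ _).trans ((Finset.sum_le_sum fun n _ => hZ2 n).trans ?_)
      rw [Finset.sum_const, nsmul_eq_mul]
      have hc : (Finset.Icc n0 n1 \ Finset.Icc n0 n2).card ≤ 1 := by
        have hss : Finset.Icc n0 n1 \ Finset.Icc n0 n2 ⊆ Finset.Icc (n2 + 1) n1 := by
          intro x hx
          simp only [Finset.mem_sdiff, Finset.mem_Icc] at hx ⊢
          omega
        refine (Finset.card_le_card hss).trans ?_
        rw [Nat.card_Icc]
        omega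
      have hc' : (((Finset.Icc n0 n1 \ Finset.Icc n0 n2).card : ℕ) : ℝ) ≤ 1 := by exact_mod_cast hc
      linarith
    calc ‖∑ n ∈ Finset.Icc n0 n1 \ Finset.Icc n0 n2, Z n + ∑ n ∈ Finset.Icc n0 n2, Z n‖
        ≤ 2 + 4 * K1 * (N ^ (1 / 2 : ℝ) * F ^ ε) :=
          (norm_add_le _ _).trans (add_le_add hlast (hall.trans hmain))
      _ ≤ 2 * (N ^ (1 / 2 : ℝ) * F ^ ε) + 4 * K1 * (N ^ (1 / 2 : ℝ) * F ^ ε) := by linarith
      _ ≤ (4 + 4 * K1 + 2) * N ^ (1 / 2 : ℝ) * F ^ ε := by nlinarith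

end Pool.Agent.U501.EP
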