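import Mathlib
import Pool.Agent.U501.EP.Stm
import Pool.Agent.U501.EP.FLUC

set_option autoImplicit false

/-!
# Project EP, package MAIN
-/

namespace Pool.Agent.U501.EP

open MeasureTheory ProbabilityTheory Finset

/-- projection to the unit interval -/
noncomputable def cl (y : ℝ) : ℝ := max 0 (min 1 y)

theorem cl_mem (y : ℝ) : 0 ≤ cl y ∧ cl y ≤ 1 := by
  unfold cl
  exact ⟨le_max_left _ _, max_le zero_le_one (min_le_left _ _)⟩

theorem cl_eq {y : ℝ} (h0 : 0 ≤ y) (h1 : y ≤ 1) : cl y = y := by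
  unfold cl
  rw [min_eq_right h1, max_eq_right h0]

theorem continuous_cl : Continuous cl := by
  unfold cl
  fun_prop

/-- the mean of one term -/
theorem mean_eq {Ω : Type} [MeasurableSpace Ω] (P : Measure Ω) [IsProbabilityMeasure P]
    (ρ : ℝ → ℝ) (hρ : Continuous ρ) (hρ0 : ∀ u, 0 ≤ ρ u) (hρl : ∀ u, u ≤ 0 → ρ u = 0)
    (hρr : ∀ u, 1 ≤ u → ρ u = 0) (Y : Ω → ℝ) (hY : Measurable Y) (hlaw : P.map Y = lawD ρ)
    (δ : ℝ) (hδ : 0 < δ) (hδ1 : δ ≤ 1) (n : ℕ) (f : ℝ → ℝ)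
    (hf : ContinuousOn f (Set.Icc (n : ℝ) (n + 1))) :
    ∫ ω, ee (f ((n : ℝ) + δ * cl (Y ω))) ∂P =
      ∫ u in (0 : ℝ)..1, ((δ⁻¹ * ρ (u / δ) : ℝ) : ℂ) * ee (f ((n : ℝ) + u)) := by
  set g : ℝ → ℂ := fun y => ee (f ((n : ℝ) + δ * cl y)) with hg
  have hgc : Continuous g := by
    have h1 : Continuous fun y : ℝ => f ((n : ℝ) + δ * cl y) := by
      have h2 := hf.comp_continuous (f := fun y : ℝ => (n : ℝ) + δ * cl y)
        (continuous_const.add (continuous_const.mul continuous_cl)) (fun y => by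
          have := cl_mem y
          refine ⟨by nlinarith, by nlinarith⟩)
      exact h2
    exact continuous_ee.comp h1
  have e1 : ∫ ω, g (Y ω) ∂P = ∫ y, g y ∂(lawD ρ) := by
    rw [← hlaw]
    exact (integral_map hY.aemeasurable hgc.aestronglyMeasurable).symm
  have e2 : ∫ y, g y ∂(lawD ρ) = ∫ y, (ρ y) • g y := by
    unfold lawD
    rw [integral_withDensity_eq_integral_toReal_smul
      (hρ.measurable.ennreal_ofReal) (Filter.Eventually.of_forall fun _ => ENNReal.ofReal_lt_top)]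
    refine integral_congr_ae (Filter.Eventually.of_forall fun y => ?_)
    simp only
    rw [ENNReal.toReal_ofReal (hρ0 y)]
  have e3 : ∫ y, (ρ y) • g y = ∫ y in (0 : ℝ)..1, (ρ y) • g y := by
    refine (intervalIntegral.integral_eq_integral_of_support_subset ?_).symm
    intro y hy
    rw [Function.mem_support] at hy
    constructor
    · by_contra h
      exact hy (by rw [hρl y (not_lt.mp h), zero_smul])
    · by_contra h
      exact hy (by rw [hρr y (not_le.mp h).le, zero_smul])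
  have e4 : ∫ y in (0 : ℝ)..1, (ρ y) • g y =
      ∫ y in (0 : ℝ)..1, (ρ y : ℂ) * ee (f ((n : ℝ) + δ * y)) := by
    refine intervalIntegral.integral_congr fun y hy => ?_
    rw [Set.uIcc_of_le zero_le_one] at hy
    simp only [hg]
    rw [cl_eq hy.1 hy.2, Complex.real_smul]
  set G : ℝ → ℂ := fun u => ((δ⁻¹ * ρ (u / δ) : ℝ) : ℂ) * ee (f ((n : ℝ) + u)) with hG
  have hsup : Function.support G ⊆ Set.Ioc 0 δ := by
    intro u hu
    rw [Function.mem_support] at hu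
    constructor
    · by_contra h
      apply hu
      simp only [hG]
      rw [hρl (u / δ) (div_nonpos_of_nonpos_of_nonneg (not_lt.mp h) hδ.le)]
      simp
    · by_contra h
      apply hu
      simp only [hG]
      rw [hρr (u / δ) (by rw [le_div_iff₀ hδ]; linarith [not_le.mp h])]
      simp
  have hsup1 : Function.support G ⊆ Set.Ioc 0 1 := hsup.trans (Set.Ioc_subset_Ioc_right hδ1)
  have e5 : ∫ u in (0 : ℝ)..1, G u = ∫ u in (0 : ℝ)..δ, G u := by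
    rw [intervalIntegral.integral_eq_integral_of_support_subset hsup1,
      intervalIntegral.integral_eq_integral_of_support_subset hsup]
  have e6 : ∫ y in (0 : ℝ)..1, G (δ * y) = δ⁻¹ • ∫ u in (0 : ℝ)..δ, G u := by
    have := intervalIntegral.integral_comp_mul_left (a := 0) (b := 1) G hδ.ne'
    rw [this, mul_zero, mul_one]
  have e7 : ∫ u in (0 : ℝ)..δ, G u = ∫ y in (0 : ℝ)..1, (ρ y : ℂ) * ee (f ((n : ℝ) + δ * y)) := by
    have h1 : ∫ u in (0 : ℝ)..δ, G u = δ • ∫ y in (0 : ℝ)..1, G (δ * y) := by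
      rw [e6, smul_smul, mul_inv_cancel₀ hδ.ne', one_smul]
    rw [h1, ← intervalIntegral.integral_smul]
    refine intervalIntegral.integral_congr fun y _ => ?_
    simp only [hG]
    rw [mul_div_cancel_left₀ y hδ.ne', Complex.real_smul]
    push_cast
    have : (δ : ℂ) ≠ 0 := by exact_mod_cast hδ.ne'
    field_simp
  change ∫ ω, g (Y ω) ∂P = ∫ u in (0 : ℝ)..1, G u
  rw [e1, e2, e3, e4, e5, e7]

/-- derivatives within a subinterval -/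
theorem der_sub (N : ℝ) (hN : 0 < N) (f : ℝ → ℝ) (hf : ContDiffOn ℝ (⊤ : ℕ∞) f (Set.Icc N (2 * N)))
    (a b : ℝ) (ha : N ≤ a) (hb : b ≤ 2 * N) (j : ℕ) (x : ℝ) (hx : x ∈ Set.Icc a b) :
    HasDerivWithinAt (fun y => iteratedDerivWithin j f (Set.Icc N (2 * N)) y)
      (iteratedDerivWithin (j + 1) f (Set.Icc N (2 * N)) x) (Set.Icc a b) x := by
  have huN : UniqueDiffOn ℝ (Set.Icc N (2 * N)) := uniqueDiffOn_Icc (by linarith)
  have hsub : Set.Icc a b ⊆ Set.Icc N (2 * N) := Set.Icc_subset_Icc ha hb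
  have h1 : DifferentiableOn ℝ (iteratedDerivWithin j f (Set.Icc N (2 * N))) (Set.Icc N (2 * N)) :=
    hf.differentiableOn_iteratedDerivWithin (by exact_mod_cast WithTop.coe_lt_top j) huN
  have h2 := (h1 x (hsub hx)).hasDerivWithinAt
  rw [iteratedDerivWithin_succ]
  exact h2.mono hsub

/-- the constant part of the mean -/
theorem part_bound (ρ : ℝ → ℝ) (Cm : ℝ) (hCm0 : 0 < Cm)
    (hCm : ∀ (δ lam : ℝ) (f f1 f2 : ℝ → ℝ) (a b : ℕ), 0 < δ → δ ≤ 1 → 0 < lam → a ≤ b →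
      (∀ x ∈ Set.Icc (a : ℝ) (b + 1), HasDerivWithinAt f (f1 x) (Set.Icc (a : ℝ) (b + 1)) x) →
      (∀ x ∈ Set.Icc (a : ℝ) (b + 1), HasDerivWithinAt f1 (f2 x) (Set.Icc (a : ℝ) (b + 1)) x) →
      ContinuousOn f2 (Set.Icc (a : ℝ) (b + 1)) → (∀ x ∈ Set.Icc (a : ℝ) (b + 1), lam ≤ |f2 x|) →
      ‖∑ n ∈ Finset.Icc a b, ∫ u in (0 : ℝ)..1, ((δ⁻¹ * ρ (u / δ) : ℝ) : ℂ) * ee (f ((n : ℝ) + u))‖ ≤
        Cm / δ * lam ^ (-(1 / 2) : ℝ))
    (c C : ℕ → ℝ) (hc : ∀ j, 0 < c j) (N F : ℝ) (hN : 0 < N) (hF : 0 < F) (f : ℝ → ℝ)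
    (hf : Adm c C N F f) (a b : ℕ) (ha : N ≤ a) (hb : (b : ℝ) + 1 ≤ 2 * N) (δ : ℝ) (hδ : 0 < δ)
    (hδ1 : δ ≤ 1) :
    ‖∑ n ∈ Finset.Icc a b, ∫ u in (0 : ℝ)..1, ((δ⁻¹ * ρ (u / δ) : ℝ) : ℂ) * ee (f ((n : ℝ) + u))‖ ≤
      Cm * c 2 ^ (-(1 / 2) : ℝ) * (N / (δ * F ^ (1 / 2 : ℝ))) := by
  have hlam : 0 < c 2 * F / N ^ 2 := by have := hc 2; positivity
  have hval : Cm / δ * (c 2 * F / N ^ 2) ^ (-(1 / 2) : ℝ) =
      Cm * c 2 ^ (-(1 / 2) : ℝ) * (N / (δ * F ^ (1 / 2 : ℝ))) := by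
    have h1 : (c 2 * F / N ^ 2) ^ (-(1 / 2) : ℝ) = c 2 ^ (-(1 / 2) : ℝ) * (N / F ^ (1 / 2 : ℝ)) := by
      rw [Real.div_rpow (mul_pos (hc 2) hF).le (by positivity), Real.mul_rpow (hc 2).le hF.le]
      have h2 : (N ^ 2) ^ (-(1 / 2) : ℝ) = N⁻¹ := by
        rw [← Real.rpow_natCast, ← Real.rpow_mul hN.le]
        rw [show (((2 : ℕ) : ℝ) * (-(1 / 2))) = -1 by norm_num, Real.rpow_neg_one]
      rw [h2, Real.rpow_neg hF.le]
      field_simp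
    rw [h1]
    have : F ^ (1 / 2 : ℝ) ≠ 0 := by positivity
    field_simp
  rcases le_or_gt a b with hab | hab
  · rw [← hval]
    refine hCm δ (c 2 * F / N ^ 2) f (iteratedDerivWithin 1 f (Set.Icc N (2 * N)))
      (iteratedDerivWithin 2 f (Set.Icc N (2 * N))) a b hδ hδ1 hlam hab ?_ ?_ ?_ ?_
    · intro x hx
      have := der_sub N hN f hf.1 a (b + 1) ha hb 0 x hx
      simpa using this
    · intro x hx
      exact der_sub N hN f hf.1 a (b + 1) ha hb 1 x hx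
    · intro x hx
      have := der_sub N hN f hf.1 a (b + 1) ha hb 2 x hx
      exact this.continuousWithinAt
    · intro x hx
      exact (hf.2 2 x (Set.Icc_subset_Icc ha hb hx)).1
  · rw [Finset.Icc_eq_empty (by omega), Finset.sum_empty, norm_zero]
    have := hc 2
    positivity

/-- Package MAIN. -/
theorem t_MAIN : S_FLUC → S_MEAN → S_MAIN := by
  intro hFLUC hMEAN ρ hρ hρ0 hρl hρr hρ1 d hd Ω _ P _ Y hYm hYi hlaw
  classical
  obtain ⟨Cm, hCm0, hCm⟩ := hMEAN ρ hρ hρl hρr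
  -- all `Y n` are in the unit interval
  have hY01 : ∀ᵐ ω ∂P, ∀ n, 0 ≤ Y n ω ∧ Y n ω ≤ 1 := by
    rw [ae_all_iff]
    intro n
    have h1 : ∀ᵐ y ∂(lawD ρ), 0 ≤ y ∧ y ≤ 1 := by
      unfold lawD
      rw [ae_withDensity_iff hρ.continuous.measurable.ennreal_ofReal]
      refine Filter.Eventually.of_forall fun y hy => ?_
      constructor
      · by_contra h
        exact hy (by rw [hρl y (not_le.mp h).le]; simp)
      · by_contra h
        exact hy (by rw [hρr y (not_le.mp h).le]; simp)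
    rw [← hlaw n] at h1
    exact ae_of_ae_map (hYm n).aemeasurable h1
  -- the perturbations
  set X : ℕ → Ω → ℝ := fun n ω => d (Nat.log 2 n) * cl (Y n ω) with hX
  have hXm : ∀ n, Measurable (X n) := fun n =>
    (continuous_cl.measurable.comp (hYm n)).const_mul _
  have hXi : iIndepFun X P := by
    have := hYi.comp (fun n y => d (Nat.log 2 n) * cl y)
      (fun n => (continuous_cl.measurable).const_mul _)
    exact this
  have hX01 : ∀ n ω, 0 ≤ X n ω ∧ X n ω ≤ 1 := by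
    intro n ω
    have h1 := hd (Nat.log 2 n)
    have h2 := cl_mem (Y n ω)
    simp only [hX]
    exact ⟨mul_nonneg h1.1.le h2.1, mul_le_one₀ h1.2 h2.1 h2.2⟩
  -- the fluctuations
  have hfl : ∀ i : ℕ, ∃ k : ℕ, ∀ M : ℕ, ∀ᵐ ω ∂P, ∃ K : ℝ, ∀ (N N' F : ℝ) (f : ℝ → ℝ),
      2 ≤ N → N ≤ N' → N' ≤ 2 * N → N ≤ F → ContDiffOn ℝ (⊤ : ℕ∞) f (Set.Icc N (2 * N)) →
      (∀ j : ℕ, j ≤ k → ∀ x ∈ Set.Icc N (2 * N),
        |iteratedDerivWithin j f (Set.Icc N (2 * N)) x| ≤ M * F / N ^ j) →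
      ‖∑ n ∈ Finset.Icc ⌈N⌉₊ ⌊N'⌋₊, (ee (f ((n : ℝ) + X n ω)) - ∫ ω', ee (f ((n : ℝ) + X n ω')) ∂P)‖ ≤
        K * N ^ (1 / 2 : ℝ) * F ^ (1 / ((i : ℝ) + 1)) :=
    fun i => hFLUC Ω P X hXm hXi hX01 (1 / ((i : ℝ) + 1)) (by positivity)
  choose k hk using hfl
  have hall : ∀ᵐ ω ∂P, ∀ i M : ℕ, ∃ K : ℝ, ∀ (N N' F : ℝ) (f : ℝ → ℝ),
      2 ≤ N → N ≤ N' → N' ≤ 2 * N → N ≤ F → ContDiffOn ℝ (⊤ : ℕ∞) f (Set.Icc N (2 * N)) →
      (∀ j : ℕ, j ≤ k i → ∀ x ∈ Set.Icc N (2 * N),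
        |iteratedDerivWithin j f (Set.Icc N (2 * N)) x| ≤ M * F / N ^ j) →
      ‖∑ n ∈ Finset.Icc ⌈N⌉₊ ⌊N'⌋₊, (ee (f ((n : ℝ) + X n ω)) - ∫ ω', ee (f ((n : ℝ) + X n ω')) ∂P)‖ ≤
        K * N ^ (1 / 2 : ℝ) * F ^ (1 / ((i : ℝ) + 1)) := by
    rw [ae_all_iff]
    intro i
    rw [ae_all_iff]
    exact hk i
  filter_upwards [hall, hY01] with ω hω hω01
  intro ε hε c C hc hC
  obtain ⟨i, hi⟩ := exists_nat_one_div_lt hε
  obtain ⟨M, hM⟩ : ∃ M : ℕ, ∑ j ∈ Finset.range (k i + 1), C j ≤ (M : ℝ) := ⟨_, Nat.le_ceil _⟩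
  obtain ⟨K, hK⟩ := hω i M
  refine ⟨|K| + 2 * (Cm * c 2 ^ (-(1 / 2) : ℝ)) + 1, ?_⟩
  intro N N' F f hN hNN' hN'2 hNF hf
  have hN0 : 0 < N := by linarith
  have hN1 : 1 ≤ N := by linarith
  have hF0 : 0 < F := by linarith
  have hF1 : 1 ≤ F := by linarith
  obtain ⟨n0, hn0⟩ : ∃ n0 : ℕ, n0 = ⌈N⌉₊ := ⟨_, rfl⟩
  obtain ⟨n1, hn1⟩ : ∃ n1 : ℕ, n1 = ⌊N'⌋₊ := ⟨_, rfl⟩
  obtain ⟨n2, hn2⟩ : ∃ n2 : ℕ, n2 = min n1 (⌊2 * N⌋₊ - 1) := ⟨_, rfl⟩
  obtain ⟨l, hl⟩ : ∃ l : ℕ, l = Nat.log 2 n0 := ⟨_, rfl⟩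
  have hn0l : N ≤ n0 := by rw [hn0]; exact Nat.le_ceil N
  have hn01 : 1 ≤ n0 := by
    have : (1 : ℝ) ≤ n0 := by linarith
    exact_mod_cast this
  have hfl2 : (⌊2 * N⌋₊ : ℝ) ≤ 2 * N := Nat.floor_le (by linarith)
  have hn1fl : n1 ≤ ⌊2 * N⌋₊ := by rw [hn1]; exact Nat.floor_le_floor hN'2
  have hfl1 : 1 ≤ ⌊2 * N⌋₊ := by
    apply Nat.le_floor
    push_cast
    linarith
  have hn2u : (n2 : ℝ) + 1 ≤ 2 * N := by
    have h1 : n2 + 1 ≤ ⌊2 * N⌋₊ := by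
      have := min_le_right n1 (⌊2 * N⌋₊ - 1)
      omega
    have h2 : ((n2 + 1 : ℕ) : ℝ) ≤ (⌊2 * N⌋₊ : ℝ) := by exact_mod_cast h1
    push_cast at h2
    linarith
  set μ : ℕ → ℂ := fun n => ∫ ω', ee (f ((n : ℝ) + X n ω')) ∂P with hμ
  have hμ1 : ∀ n, ‖μ n‖ ≤ 1 := fun n => norm_integral_ee_le P _
  have hNh1 : (1 : ℝ) ≤ N ^ (1 / 2 : ℝ) := Real.one_le_rpow hN1 (by norm_num)
  have hFε1 : (1 : ℝ) ≤ F ^ ε := Real.one_le_rpow hF1 hε.le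
  obtain ⟨dm, hdm⟩ : ∃ dm : ℝ, dm = min (d l) (d (l + 1)) := ⟨_, rfl⟩
  have hdm0 : 0 < dm := by rw [hdm]; exact lt_min (hd l).1 (hd (l + 1)).1
  obtain ⟨Q, hQ⟩ : ∃ Q : ℝ, Q = N / (dm * F ^ (1 / 2 : ℝ)) := ⟨_, rfl⟩
  have hQ0 : 0 ≤ Q := by rw [hQ]; positivity
  -- the sum in question
  have hsum : ∑ n ∈ Finset.Icc n0 n1, ee (f ((n : ℝ) + d (Nat.log 2 n) * Y n ω)) =
      ∑ n ∈ Finset.Icc n0 n1, (ee (f ((n : ℝ) + X n ω)) - μ n) + ∑ n ∈ Finset.Icc n0 n1, μ n := by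
    rw [← Finset.sum_add_distrib]
    refine Finset.sum_congr rfl fun n _ => ?_
    rw [sub_add_cancel]
    simp only [hX]
    rw [cl_eq (hω01 n).1 (hω01 n).2]
  rw [← hn0, ← hn1, ← hl, ← hdm, ← hQ, hsum]
  -- fluctuation
  have hF1' : ‖∑ n ∈ Finset.Icc n0 n1, (ee (f ((n : ℝ) + X n ω)) - μ n)‖ ≤
      |K| * (F ^ ε * N ^ (1 / 2 : ℝ)) := by
    have h1 := hK N N' F f hN hNN' hN'2 hNF hf.1 (by
      intro j hj x hx
      refine (hf.2 j x hx).2.trans ?_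
      have h2 : C j ≤ M := by
        refine le_trans ?_ hM
        exact Finset.single_le_sum (f := C) (fun j _ => (hC j).le)
          (Finset.mem_range.mpr (Nat.lt_succ_of_le hj))
      gcongr)
    rw [← hn0, ← hn1] at h1
    refine h1.trans ?_
    have h3 : F ^ (1 / ((i : ℝ) + 1)) ≤ F ^ ε := Real.rpow_le_rpow_of_exponent_le hF1 hi.le
    calc K * N ^ (1 / 2 : ℝ) * F ^ (1 / ((i : ℝ) + 1))
        ≤ |K| * N ^ (1 / 2 : ℝ) * F ^ (1 / ((i : ℝ) + 1)) := by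
          gcongr
          exact le_abs_self K
      _ ≤ |K| * N ^ (1 / 2 : ℝ) * F ^ ε := by gcongr
      _ = |K| * (F ^ ε * N ^ (1 / 2 : ℝ)) := by ring
  -- mean
  have hμval : ∀ n ∈ Finset.Icc n0 n2, μ n = ∫ u in (0 : ℝ)..1,
      (((d (Nat.log 2 n))⁻¹ * ρ (u / d (Nat.log 2 n)) : ℝ) : ℂ) * ee (f ((n : ℝ) + u)) := by
    intro n hn
    rw [Finset.mem_Icc] at hn
    have h1 : (n0 : ℝ) ≤ n := by exact_mod_cast hn.1
    have h2 : (n : ℝ) ≤ n2 := by exact_mod_cast hn.2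
    have := hd (Nat.log 2 n)
    exact mean_eq P ρ hρ.continuous hρ0 hρl hρr (Y n) (hYm n) (hlaw n) (d (Nat.log 2 n)) this.1
      this.2 n f (hf.1.continuousOn.mono (Set.Icc_subset_Icc (by linarith) (by linarith)))
  have hs : n0 < 2 ^ (l + 1) := by rw [hl]; exact Nat.lt_pow_succ_log_self (by norm_num) n0
  have hs' : 2 ^ l ≤ n0 := by rw [hl]; exact Nat.pow_log_le_self 2 (by omega)
  have hQδ : ∀ δ : ℝ, dm ≤ δ → N / (δ * F ^ (1 / 2 : ℝ)) ≤ Q := by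
    intro δ hδ
    rw [hQ]
    gcongr
  have hCc : 0 ≤ Cm * c 2 ^ (-(1 / 2) : ℝ) := by
    have := hc 2
    positivity
  have hM1 : ‖∑ n ∈ Finset.Icc n0 (min n2 (2 ^ (l + 1) - 1)), μ n‖ ≤
      Cm * c 2 ^ (-(1 / 2) : ℝ) * Q := by
    have h1 : ∑ n ∈ Finset.Icc n0 (min n2 (2 ^ (l + 1) - 1)), μ n =
        ∑ n ∈ Finset.Icc n0 (min n2 (2 ^ (l + 1) - 1)), ∫ u in (0 : ℝ)..1,
          (((d l)⁻¹ * ρ (u / d l) : ℝ) : ℂ) * ee (f ((n : ℝ) + u)) := by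
      refine Finset.sum_congr rfl fun n hn => ?_
      rw [Finset.mem_Icc] at hn
      have h2 := hn.2.trans (min_le_left _ _)
      have h3 := hn.2.trans (min_le_right _ _)
      have h4 : Nat.log 2 n = l := by
        apply Nat.log_eq_of_pow_le_of_lt_pow (hs'.trans hn.1)
        omega
      rw [hμval n (Finset.mem_Icc.mpr ⟨hn.1, h2⟩), h4]
    rw [h1]
    have hle : ((min n2 (2 ^ (l + 1) - 1) : ℕ) : ℝ) ≤ n2 := by exact_mod_cast min_le_left _ _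
    refine (part_bound ρ Cm hCm0 hCm c C hc N F hN0 hF0 f hf n0 _ hn0l (by linarith) (d l)
      (hd l).1 (hd l).2).trans ?_
    exact mul_le_mul_of_nonneg_left (hQδ _ (by rw [hdm]; exact min_le_left _ _)) hCc
  have hM2 : ‖∑ n ∈ Finset.Icc (2 ^ (l + 1)) n2, μ n‖ ≤ Cm * c 2 ^ (-(1 / 2) : ℝ) * Q := by
    have h1 : ∑ n ∈ Finset.Icc (2 ^ (l + 1)) n2, μ n =
        ∑ n ∈ Finset.Icc (2 ^ (l + 1)) n2, ∫ u in (0 : ℝ)..1,
          (((d (l + 1))⁻¹ * ρ (u / d (l + 1)) : ℝ) : ℂ) * ee (f ((n : ℝ) + u)) := by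
      refine Finset.sum_congr rfl fun n hn => ?_
      rw [Finset.mem_Icc] at hn
      have h4 : Nat.log 2 n = l + 1 := by
        apply Nat.log_eq_of_pow_le_of_lt_pow hn.1
        have h5 : (n : ℝ) ≤ 2 * n0 := by
          have : (n : ℝ) ≤ n2 := by exact_mod_cast hn.2
          linarith
        have h6 : n ≤ 2 * n0 := by exact_mod_cast h5
        have h7 : 2 ^ (l + 1 + 1) = 2 * 2 ^ (l + 1) := by ring
        omega
      rw [hμval n (Finset.mem_Icc.mpr ⟨hs.le.trans hn.1, hn.2⟩), h4]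
    rw [h1]
    refine (part_bound ρ Cm hCm0 hCm c C hc N F hN0 hF0 f hf _ n2 ?_ hn2u (d (l + 1))
      (hd (l + 1)).1 (hd (l + 1)).2).trans ?_
    · have : (n0 : ℝ) ≤ ((2 ^ (l + 1) : ℕ) : ℝ) := by exact_mod_cast hs.le
      linarith
    · exact mul_le_mul_of_nonneg_left (hQδ _ (by rw [hdm]; exact min_le_right _ _)) hCc
  have hsplit : Finset.Icc n0 n2 =
      Finset.Icc n0 (min n2 (2 ^ (l + 1) - 1)) ∪ Finset.Icc (2 ^ (l + 1)) n2 := by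
    ext x
    simp only [Finset.mem_Icc, Finset.mem_union]
    have h2 : 1 ≤ 2 ^ (l + 1) := Nat.one_le_two_pow
    omega
  have hdisj : Disjoint (Finset.Icc n0 (min n2 (2 ^ (l + 1) - 1)))
      (Finset.Icc (2 ^ (l + 1)) n2) := by
    rw [Finset.disjoint_left]
    intro x hx hx'
    simp only [Finset.mem_Icc] at hx hx'
    have h2 : 1 ≤ 2 ^ (l + 1) := Nat.one_le_two_pow
    omega
  have hM3 : ‖∑ n ∈ Finset.Icc n0 n2, μ n‖ ≤ 2 * (Cm * c 2 ^ (-(1 / 2) : ℝ)) * Q := by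
    rw [hsplit, Finset.sum_union hdisj]
    refine (norm_add_le _ _).trans ?_
    linarith
  have hsub : Finset.Icc n0 n2 ⊆ Finset.Icc n0 n1 := by
    apply Finset.Icc_subset_Icc_right
    rw [hn2]
    exact min_le_left _ _
  have hM4 : ‖∑ n ∈ Finset.Icc n0 n1, μ n‖ ≤ 1 + 2 * (Cm * c 2 ^ (-(1 / 2) : ℝ)) * Q := by
    rw [← Finset.sum_sdiff hsub]
    refine (norm_add_le _ _).trans (add_le_add ?_ hM3)
    refine (norm_sum_le _ _).trans ((Finset.sum_le_sum fun n _ => hμ1 n).trans ?_)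
    rw [Finset.sum_const, nsmul_eq_mul, mul_one]
    have hcc : (Finset.Icc n0 n1 \ Finset.Icc n0 n2).card ≤ 1 := by
      have hss : Finset.Icc n0 n1 \ Finset.Icc n0 n2 ⊆ Finset.Icc (n2 + 1) n1 := by
        intro x hx
        simp only [Finset.mem_sdiff, Finset.mem_Icc] at hx ⊢
        omega
      refine (Finset.card_le_card hss).trans ?_
      rw [Nat.card_Icc]
      omega
    exact_mod_cast hcc
  refine (norm_add_le _ _).trans ((add_le_add hF1' hM4).trans ?_)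
  have hFQ : Q ≤ F ^ ε * Q := le_mul_of_one_le_left hQ0 hFε1
  have hFN : (1 : ℝ) ≤ F ^ ε * N ^ (1 / 2 : ℝ) := one_le_mul_of_one_le_of_one_le hFε1 hNh1
  have hFQ0 : 0 ≤ F ^ ε * Q := by positivity
  have hK0 := abs_nonneg K
  have e1 : (|K| + 2 * (Cm * c 2 ^ (-(1 / 2) : ℝ)) + 1) * F ^ ε * (N ^ (1 / 2 : ℝ) + Q) =
      |K| * (F ^ ε * N ^ (1 / 2 : ℝ)) + F ^ ε * N ^ (1 / 2 : ℝ) +
      2 * (Cm * c 2 ^ (-(1 / 2) : ℝ)) * (F ^ ε * Q) +
      (|K| * (F ^ ε * Q) + F ^ ε * Q + 2 * (Cm * c 2 ^ (-(1 / 2) : ℝ)) * (F ^ ε * N ^ (1 / 2 : ℝ))) := by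
    ring
  rw [e1]
  have e2 : 0 ≤ |K| * (F ^ ε * Q) + F ^ ε * Q +
      2 * (Cm * c 2 ^ (-(1 / 2) : ℝ)) * (F ^ ε * N ^ (1 / 2 : ℝ)) := by positivity
  have e3 : 2 * (Cm * c 2 ^ (-(1 / 2) : ℝ)) * Q ≤ 2 * (Cm * c 2 ^ (-(1 / 2) : ℝ)) * (F ^ ε * Q) := by
    gcongr
  linarith

end Pool.Agent.U501.EP
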