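import Mathlib
import Pool.Agent.U501.EP.Stm

set_option autoImplicit false

/-!
# Project EP, second statement file
-/

namespace Pool.Agent.U501.EP

/-- package VS: van der Corput's second derivative test for the sums with an admissible function; all translates
at once (a classical bound) -/
def S_VS : Prop := ∀ c C : ℕ → ℝ, (∀ j, 0 < c j) → (∀ j, 0 < C j) → ∃ K : ℝ, 0 < K ∧
  ∀ (N F : ℝ) (f : ℝ → ℝ) (a b : ℕ) (t : ℝ), 2 ≤ N → N ≤ F → Adm c C N F f → 0 ≤ t → t ≤ 1 → N ≤ a →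
    (b : ℝ) + 1 ≤ 2 * N →
    ‖∑ n ∈ Finset.Icc a b, ee (f ((n : ℝ) + t))‖ ≤ K * (F ^ (1 / 2 : ℝ) * (1 + Real.log N) ^ (1 / 2 : ℝ))

end Pool.Agent.U501.EP
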