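import Mathlib
import Pool.Agent.U501.EP.Stm2
import Pool.Agent.U501.EP.MAIN

set_option autoImplicit false

/-!
# Project EP, the main theorem with both bounds for the mean
-/

namespace Pool.Agent.U501.EP

open MeasureTheory ProbabilityTheory Finset

/-- the main theorem -/
def S_MAIN2 : Prop := ∀ ρ : ℝ → ℝ, ContDiff ℝ 2 ρ → (∀ u, 0 ≤ ρ u) → (∀ u, u ≤ 0 → ρ u = 0) →
  (∀ u, 1 ≤ u → ρ u = 0) → ∫ u, ρ u = 1 → ∀ d : ℕ → ℝ, (∀ l, 0 < d l ∧ d l ≤ 1) →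
  ∀ (Ω : Type) [MeasurableSpace Ω] (P : Measure Ω) [IsProbabilityMeasure P] (Y : ℕ → Ω → ℝ),
  (∀ n, Measurable (Y n)) → iIndepFun Y P → (∀ n, P.map (Y n) = lawD ρ) →
  ∀ᵐ ω ∂P, ∀ ε : ℝ, 0 < ε → ∀ c C : ℕ → ℝ, (∀ j, 0 < c j) → (∀ j, 0 < C j) → ∃ K : ℝ,
    ∀ (N N' F : ℝ) (f : ℝ → ℝ), 2 ≤ N → N ≤ N' → N' ≤ 2 * N → N ≤ F → Adm c C N F f →
    ‖∑ n ∈ Finset.Icc ⌈N⌉₊ ⌊N'⌋₊, ee (f ((n : ℝ) + d (Nat.log 2 n) * Y n ω))‖ ≤
      K * F ^ ε * (N ^ (1 / 2 : ℝ) + min (F ^ (1 / 2 : ℝ))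
        (N / (min (d (Nat.log 2 ⌈N⌉₊)) (d (Nat.log 2 ⌈N⌉₊ + 1)) * F ^ (1 / 2 : ℝ))))

/-- averaging over the translates -/
theorem part_bound2 (ρ : ℝ → ℝ) (hρ : Continuous ρ) (hρ0 : ∀ u, 0 ≤ ρ u) (N : ℝ) (f : ℝ → ℝ)
    (hf : ContinuousOn f (Set.Icc N (2 * N))) (a b : ℕ) (ha : N ≤ a) (hb : (b : ℝ) + 1 ≤ 2 * N)
    (δ : ℝ) (hδ : 0 < δ) (hint : ∫ u in (0 : ℝ)..1, δ⁻¹ * ρ (u / δ) = 1) (B : ℝ)
    (hB : ∀ t : ℝ, 0 ≤ t → t ≤ 1 → ‖∑ n ∈ Finset.Icc a b, ee (f ((n : ℝ) + t))‖ ≤ B) :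
    ‖∑ n ∈ Finset.Icc a b, ∫ u in (0 : ℝ)..1, ((δ⁻¹ * ρ (u / δ) : ℝ) : ℂ) * ee (f ((n : ℝ) + u))‖ ≤
      B := by
  have hc1 : Continuous fun u : ℝ => δ⁻¹ * ρ (u / δ) :=
    continuous_const.mul (hρ.comp (continuous_id.div_const δ))
  have hcont : ∀ n ∈ Finset.Icc a b, ContinuousOn (fun u : ℝ => ((δ⁻¹ * ρ (u / δ) : ℝ) : ℂ) *
      ee (f ((n : ℝ) + u))) (Set.uIcc (0 : ℝ) 1) := by
    intro n hn
    rw [Finset.mem_Icc] at hn
    have h1 : (a : ℝ) ≤ n := by exact_mod_cast hn.1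
    have h2 : (n : ℝ) ≤ b := by exact_mod_cast hn.2
    rw [Set.uIcc_of_le zero_le_one]
    apply ContinuousOn.mul
    · exact (Complex.continuous_ofReal.comp hc1).continuousOn
    · apply continuous_ee.comp_continuousOn
      apply hf.comp (continuous_const.add continuous_id).continuousOn
      intro u hu
      have hu1 := hu.1
      have hu2 := hu.2
      change (n : ℝ) + u ∈ Set.Icc N (2 * N)
      exact ⟨by linarith, by linarith⟩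
  rw [← intervalIntegral.integral_finsetSum fun n hn => (hcont n hn).intervalIntegrable]
  have h3 : ∀ u ∈ Set.Ioc (0 : ℝ) 1, ‖∑ n ∈ Finset.Icc a b, ((δ⁻¹ * ρ (u / δ) : ℝ) : ℂ) *
      ee (f ((n : ℝ) + u))‖ ≤ B * (δ⁻¹ * ρ (u / δ)) := by
    intro u hu
    rw [← Finset.mul_sum, norm_mul, Complex.norm_real, Real.norm_eq_abs,
      abs_of_nonneg (mul_nonneg (inv_nonneg.mpr hδ.le) (hρ0 _)), mul_comm]
    exact mul_le_mul_of_nonneg_right (hB u hu.1.le hu.2)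
      (mul_nonneg (inv_nonneg.mpr hδ.le) (hρ0 _))
  refine (intervalIntegral.norm_integral_le_of_norm_le zero_le_one
    (Filter.Eventually.of_forall h3) ((continuous_const.mul hc1).intervalIntegrable _ _)).trans ?_
  rw [intervalIntegral.integral_const_mul, hint, mul_one]

/-- The main theorem from its parts. -/
theorem t_MAIN2 : S_FLUC → S_MEAN → S_VS → S_MAIN2 := by
  intro hFLUC hMEAN hVS ρ hρ hρ0 hρl hρr hρ1 d hd Ω _ P _ Y hYm hYi hlaw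
  classical
  obtain ⟨Cm, hCm0, hCm⟩ := hMEAN ρ hρ hρl hρr
  -- all `Y n` are in the unit interval
  have hY01 : ∀ᵐ ω ∂P, ∀ n, 0 ≤ Y n ω ∧ Y n ω ≤ 1 := by
    rw [ae_all_iff]
    intro n
    have h1 : ∀ᵐ y ∂(lawD ρ), 0 ≤ y ∧ y ≤ 1 := by
      unfold lawD
      rw [ae_withDensity_iff hρ.continuous.measurable.ennreal_ofReal]
      refine Filter.Eventually.of_forall fun y hy => ?_
      constructor
      · by_contra h
        exact hy (by rw [hρl y (not_le.mp h).le]; simp)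
      · by_contra h
        exact hy (by rw [hρr y (not_le.mp h).le]; simp)
    rw [← hlaw n] at h1
    exact ae_of_ae_map (hYm n).aemeasurable h1
  -- the perturbations
  set X : ℕ → Ω → ℝ := fun n ω => d (Nat.log 2 n) * cl (Y n ω) with hX
  have hXm : ∀ n, Measurable (X n) := fun n =>
    (continuous_cl.measurable.comp (hYm n)).const_mul _
  have hXi : iIndepFun X P := by
    have := hYi.comp (fun n y => d (Nat.log 2 n) * cl y)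
      (fun n => (continuous_cl.measurable).const_mul _)
    exact this
  have hX01 : ∀ n ω, 0 ≤ X n ω ∧ X n ω ≤ 1 := by
    intro n ω
    have h1 := hd (Nat.log 2 n)
    have h2 := cl_mem (Y n ω)
    simp only [hX]
    exact ⟨mul_nonneg h1.1.le h2.1, mul_le_one₀ h1.2 h2.1 h2.2⟩
  -- the fluctuations
  have hfl : ∀ i : ℕ, ∃ k : ℕ, ∀ M : ℕ, ∀ᵐ ω ∂P, ∃ K : ℝ, ∀ (N N' F : ℝ) (f : ℝ → ℝ),
      2 ≤ N → N ≤ N' → N' ≤ 2 * N → N ≤ F → ContDiffOn ℝ (⊤ : ℕ∞) f (Set.Icc N (2 * N)) →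
      (∀ j : ℕ, j ≤ k → ∀ x ∈ Set.Icc N (2 * N),
        |iteratedDerivWithin j f (Set.Icc N (2 * N)) x| ≤ M * F / N ^ j) →
      ‖∑ n ∈ Finset.Icc ⌈N⌉₊ ⌊N'⌋₊, (ee (f ((n : ℝ) + X n ω)) - ∫ ω', ee (f ((n : ℝ) + X n ω')) ∂P)‖ ≤
        K * N ^ (1 / 2 : ℝ) * F ^ (1 / ((i : ℝ) + 1)) :=
    fun i => hFLUC Ω P X hXm hXi hX01 (1 / ((i : ℝ) + 1)) (by positivity)
  choose k hk using hfl
  have hall : ∀ᵐ ω ∂P, ∀ i M : ℕ, ∃ K : ℝ, ∀ (N N' F : ℝ) (f : ℝ → ℝ),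
      2 ≤ N → N ≤ N' → N' ≤ 2 * N → N ≤ F → ContDiffOn ℝ (⊤ : ℕ∞) f (Set.Icc N (2 * N)) →
      (∀ j : ℕ, j ≤ k i → ∀ x ∈ Set.Icc N (2 * N),
        |iteratedDerivWithin j f (Set.Icc N (2 * N)) x| ≤ M * F / N ^ j) →
      ‖∑ n ∈ Finset.Icc ⌈N⌉₊ ⌊N'⌋₊, (ee (f ((n : ℝ) + X n ω)) - ∫ ω', ee (f ((n : ℝ) + X n ω')) ∂P)‖ ≤
        K * N ^ (1 / 2 : ℝ) * F ^ (1 / ((i : ℝ) + 1)) := by
    rw [ae_all_iff]
    intro i
    rw [ae_all_iff]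
    exact hk i
  filter_upwards [hall, hY01] with ω hω hω01
  intro ε hε c C hc hC
  obtain ⟨i, hi⟩ := exists_nat_one_div_lt hε
  obtain ⟨M, hM⟩ : ∃ M : ℕ, ∑ j ∈ Finset.range (k i + 1), C j ≤ (M : ℝ) := ⟨_, Nat.le_ceil _⟩
  obtain ⟨K, hK⟩ := hω i M
  obtain ⟨Kv, hKv0, hKv⟩ := hVS c C hc hC
  obtain ⟨Ce, hCe⟩ : ∃ Ce : ℝ, Ce = Kv * (1 + 1 / (2 * ε)) ^ (1 / 2 : ℝ) := ⟨_, rfl⟩
  have hCe0 : 0 ≤ Ce := by rw [hCe]; positivity
  obtain ⟨C3, hC3⟩ : ∃ C3 : ℝ, C3 = Cm * c 2 ^ (-(1 / 2) : ℝ) + Ce := ⟨_, rfl⟩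
  refine ⟨|K| + 2 * C3 + 1, ?_⟩
  intro N N' F f hN hNN' hN'2 hNF hf
  have hN0 : 0 < N := by linarith
  have hN1 : 1 ≤ N := by linarith
  have hF0 : 0 < F := by linarith
  have hF1 : 1 ≤ F := by linarith
  obtain ⟨n0, hn0⟩ : ∃ n0 : ℕ, n0 = ⌈N⌉₊ := ⟨_, rfl⟩
  obtain ⟨n1, hn1⟩ : ∃ n1 : ℕ, n1 = ⌊N'⌋₊ := ⟨_, rfl⟩
  obtain ⟨n2, hn2⟩ : ∃ n2 : ℕ, n2 = min n1 (⌊2 * N⌋₊ - 1) := ⟨_, rfl⟩
  obtain ⟨l, hl⟩ : ∃ l : ℕ, l = Nat.log 2 n0 := ⟨_, rfl⟩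
  have hn0l : N ≤ n0 := by rw [hn0]; exact Nat.le_ceil N
  have hn01 : 1 ≤ n0 := by
    have : (1 : ℝ) ≤ n0 := by linarith
    exact_mod_cast this
  have hfl2 : (⌊2 * N⌋₊ : ℝ) ≤ 2 * N := Nat.floor_le (by linarith)
  have hn1fl : n1 ≤ ⌊2 * N⌋₊ := by rw [hn1]; exact Nat.floor_le_floor hN'2
  have hfl1 : 1 ≤ ⌊2 * N⌋₊ := by
    apply Nat.le_floor
    push_cast
    linarith
  have hn2u : (n2 : ℝ) + 1 ≤ 2 * N := by
    have h1 : n2 + 1 ≤ ⌊2 * N⌋₊ := by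
      have := min_le_right n1 (⌊2 * N⌋₊ - 1)
      omega
    have h2 : ((n2 + 1 : ℕ) : ℝ) ≤ (⌊2 * N⌋₊ : ℝ) := by exact_mod_cast h1
    push_cast at h2
    linarith
  set μ : ℕ → ℂ := fun n => ∫ ω', ee (f ((n : ℝ) + X n ω')) ∂P with hμ
  have hμ1 : ∀ n, ‖μ n‖ ≤ 1 := fun n => norm_integral_ee_le P _
  have hNh1 : (1 : ℝ) ≤ N ^ (1 / 2 : ℝ) := Real.one_le_rpow hN1 (by norm_num)
  have hFε1 : (1 : ℝ) ≤ F ^ ε := Real.one_le_rpow hF1 hε.le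
  obtain ⟨dm, hdm⟩ : ∃ dm : ℝ, dm = min (d l) (d (l + 1)) := ⟨_, rfl⟩
  have hdm0 : 0 < dm := by rw [hdm]; exact lt_min (hd l).1 (hd (l + 1)).1
  obtain ⟨Q, hQ⟩ : ∃ Q : ℝ, Q = min (F ^ (1 / 2 : ℝ)) (N / (dm * F ^ (1 / 2 : ℝ))) := ⟨_, rfl⟩
  have hQ0 : 0 ≤ Q := by rw [hQ]; exact le_min (by positivity) (by positivity)
  -- the sum in question
  have hsum : ∑ n ∈ Finset.Icc n0 n1, ee (f ((n : ℝ) + d (Nat.log 2 n) * Y n ω)) =
      ∑ n ∈ Finset.Icc n0 n1, (ee (f ((n : ℝ) + X n ω)) - μ n) + ∑ n ∈ Finset.Icc n0 n1, μ n := by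
    rw [← Finset.sum_add_distrib]
    refine Finset.sum_congr rfl fun n _ => ?_
    rw [sub_add_cancel]
    simp only [hX]
    rw [cl_eq (hω01 n).1 (hω01 n).2]
  rw [← hn0, ← hn1, ← hl, ← hdm, ← hQ, hsum]
  -- fluctuation
  have hF1' : ‖∑ n ∈ Finset.Icc n0 n1, (ee (f ((n : ℝ) + X n ω)) - μ n)‖ ≤
      |K| * (F ^ ε * N ^ (1 / 2 : ℝ)) := by
    have h1 := hK N N' F f hN hNN' hN'2 hNF hf.1 (by
      intro j hj x hx
      refine (hf.2 j x hx).2.trans ?_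
      have h2 : C j ≤ M := by
        refine le_trans ?_ hM
        exact Finset.single_le_sum (f := C) (fun j _ => (hC j).le)
          (Finset.mem_range.mpr (Nat.lt_succ_of_le hj))
      gcongr)
    rw [← hn0, ← hn1] at h1
    refine h1.trans ?_
    have h3 : F ^ (1 / ((i : ℝ) + 1)) ≤ F ^ ε := Real.rpow_le_rpow_of_exponent_le hF1 hi.le
    calc K * N ^ (1 / 2 : ℝ) * F ^ (1 / ((i : ℝ) + 1))
        ≤ |K| * N ^ (1 / 2 : ℝ) * F ^ (1 / ((i : ℝ) + 1)) := by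
          gcongr
          exact le_abs_self K
      _ ≤ |K| * N ^ (1 / 2 : ℝ) * F ^ ε := by gcongr
      _ = |K| * (F ^ ε * N ^ (1 / 2 : ℝ)) := by ring
  -- mean
  have hμval : ∀ n ∈ Finset.Icc n0 n2, μ n = ∫ u in (0 : ℝ)..1,
      (((d (Nat.log 2 n))⁻¹ * ρ (u / d (Nat.log 2 n)) : ℝ) : ℂ) * ee (f ((n : ℝ) + u)) := by
    intro n hn
    rw [Finset.mem_Icc] at hn
    have h1 : (n0 : ℝ) ≤ n := by exact_mod_cast hn.1
    have h2 : (n : ℝ) ≤ n2 := by exact_mod_cast hn.2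
    have := hd (Nat.log 2 n)
    exact mean_eq P ρ hρ.continuous hρ0 hρl hρr (Y n) (hYm n) (hlaw n) (d (Nat.log 2 n)) this.1
      this.2 n f (hf.1.continuousOn.mono (Set.Icc_subset_Icc (by linarith) (by linarith)))
  have hs : n0 < 2 ^ (l + 1) := by rw [hl]; exact Nat.lt_pow_succ_log_self (by norm_num) n0
  have hs' : 2 ^ l ≤ n0 := by rw [hl]; exact Nat.pow_log_le_self 2 (by omega)
  have hCc : 0 ≤ Cm * c 2 ^ (-(1 / 2) : ℝ) := by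
    have := hc 2
    positivity
  have hC30 : 0 ≤ C3 := by rw [hC3]; positivity
  -- one part of the mean
  have hpart : ∀ (a b : ℕ) (δ : ℝ), N ≤ a → (b : ℝ) + 1 ≤ 2 * N → 0 < δ → δ ≤ 1 → dm ≤ δ →
      ‖∑ n ∈ Finset.Icc a b, ∫ u in (0 : ℝ)..1,
        ((δ⁻¹ * ρ (u / δ) : ℝ) : ℂ) * ee (f ((n : ℝ) + u))‖ ≤ C3 * (F ^ ε * Q) := by
    intro a b δ ha hb hδ hδ1 hdδ
    have h1 := part_bound ρ Cm hCm0 hCm c C hc N F hN0 hF0 f hf a b ha hb δ hδ hδ1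
    have hint : ∫ u in (0 : ℝ)..1, δ⁻¹ * ρ (u / δ) = 1 := by
      have h2 := mean_eq P ρ hρ.continuous hρ0 hρl hρr (Y 0) (hYm 0) (hlaw 0) δ hδ hδ1 0
        (fun _ => 0) continuousOn_const
      have h3 : ee 0 = 1 := by unfold ee; simp
      simp only [h3, mul_one] at h2
      rw [intervalIntegral.integral_ofReal] at h2
      simp only [integral_const, probReal_univ, one_smul] at h2
      exact_mod_cast h2.symm
    have h2 := part_bound2 ρ hρ.continuous hρ0 N f hf.1.continuousOn a b ha hb δ hδ hint _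
      (fun t ht0 ht1 => hKv N F f a b t hN hNF hf ht0 ht1 ha hb)
    have hlog : (1 + Real.log N) ^ (1 / 2 : ℝ) ≤ (1 + 1 / (2 * ε)) ^ (1 / 2 : ℝ) * F ^ ε := by
      have h3 : Real.log N ≤ N ^ (2 * ε) / (2 * ε) := Real.log_le_rpow_div hN0.le (by positivity)
      have h4 : (1 : ℝ) ≤ N ^ (2 * ε) := Real.one_le_rpow hN1 (by positivity)
      have h5 : 1 + Real.log N ≤ (1 + 1 / (2 * ε)) * N ^ (2 * ε) := by
        have e : (1 + 1 / (2 * ε)) * N ^ (2 * ε) = N ^ (2 * ε) + N ^ (2 * ε) / (2 * ε) := by ring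
        rw [e]
        linarith
      have h6 : 0 ≤ 1 + Real.log N := by have := Real.log_nonneg hN1; linarith
      calc (1 + Real.log N) ^ (1 / 2 : ℝ) ≤ ((1 + 1 / (2 * ε)) * N ^ (2 * ε)) ^ (1 / 2 : ℝ) :=
            Real.rpow_le_rpow h6 h5 (by norm_num)
        _ = (1 + 1 / (2 * ε)) ^ (1 / 2 : ℝ) * N ^ ε := by
            rw [Real.mul_rpow (by positivity) (by positivity), ← Real.rpow_mul hN0.le]
            congr 2
            ring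
        _ ≤ (1 + 1 / (2 * ε)) ^ (1 / 2 : ℝ) * F ^ ε := by
            apply mul_le_mul_of_nonneg_left _ (by positivity)
            exact Real.rpow_le_rpow hN0.le hNF hε.le
    rcases le_total (F ^ (1 / 2 : ℝ)) (N / (dm * F ^ (1 / 2 : ℝ))) with h7 | h7
    · rw [hQ, min_eq_left h7]
      calc _ ≤ Kv * (F ^ (1 / 2 : ℝ) * (1 + Real.log N) ^ (1 / 2 : ℝ)) := h2
        _ ≤ Kv * (F ^ (1 / 2 : ℝ) * ((1 + 1 / (2 * ε)) ^ (1 / 2 : ℝ) * F ^ ε)) := by gcongr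
        _ = Ce * (F ^ ε * F ^ (1 / 2 : ℝ)) := by rw [hCe]; ring
        _ ≤ C3 * (F ^ ε * F ^ (1 / 2 : ℝ)) := by
            apply mul_le_mul_of_nonneg_right _ (by positivity)
            rw [hC3]
            linarith
    · rw [hQ, min_eq_right h7]
      have h8 : N / (δ * F ^ (1 / 2 : ℝ)) ≤ N / (dm * F ^ (1 / 2 : ℝ)) := by gcongr
      have h9 : N / (dm * F ^ (1 / 2 : ℝ)) ≤ F ^ ε * (N / (dm * F ^ (1 / 2 : ℝ))) :=
        le_mul_of_one_le_left (by positivity) hFε1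
      calc _ ≤ Cm * c 2 ^ (-(1 / 2) : ℝ) * (N / (δ * F ^ (1 / 2 : ℝ))) := h1
        _ ≤ Cm * c 2 ^ (-(1 / 2) : ℝ) * (F ^ ε * (N / (dm * F ^ (1 / 2 : ℝ)))) :=
            mul_le_mul_of_nonneg_left (h8.trans h9) hCc
        _ ≤ C3 * (F ^ ε * (N / (dm * F ^ (1 / 2 : ℝ)))) := by
            apply mul_le_mul_of_nonneg_right _ (by positivity)
            rw [hC3]
            linarith
  have hM1 : ‖∑ n ∈ Finset.Icc n0 (min n2 (2 ^ (l + 1) - 1)), μ n‖ ≤ C3 * (F ^ ε * Q) := by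
    have h1 : ∑ n ∈ Finset.Icc n0 (min n2 (2 ^ (l + 1) - 1)), μ n =
        ∑ n ∈ Finset.Icc n0 (min n2 (2 ^ (l + 1) - 1)), ∫ u in (0 : ℝ)..1,
          (((d l)⁻¹ * ρ (u / d l) : ℝ) : ℂ) * ee (f ((n : ℝ) + u)) := by
      refine Finset.sum_congr rfl fun n hn => ?_
      rw [Finset.mem_Icc] at hn
      have h2 := hn.2.trans (min_le_left _ _)
      have h3 := hn.2.trans (min_le_right _ _)
      have h4 : Nat.log 2 n = l := by
        apply Nat.log_eq_of_pow_le_of_lt_pow (hs'.trans hn.1)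
        omega
      rw [hμval n (Finset.mem_Icc.mpr ⟨hn.1, h2⟩), h4]
    rw [h1]
    have hle : ((min n2 (2 ^ (l + 1) - 1) : ℕ) : ℝ) ≤ n2 := by exact_mod_cast min_le_left _ _
    exact hpart n0 _ (d l) hn0l (by linarith) (hd l).1 (hd l).2 (by rw [hdm]; exact min_le_left _ _)
  have hM2 : ‖∑ n ∈ Finset.Icc (2 ^ (l + 1)) n2, μ n‖ ≤ C3 * (F ^ ε * Q) := by
    have h1 : ∑ n ∈ Finset.Icc (2 ^ (l + 1)) n2, μ n =
        ∑ n ∈ Finset.Icc (2 ^ (l + 1)) n2, ∫ u in (0 : ℝ)..1,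
          (((d (l + 1))⁻¹ * ρ (u / d (l + 1)) : ℝ) : ℂ) * ee (f ((n : ℝ) + u)) := by
      refine Finset.sum_congr rfl fun n hn => ?_
      rw [Finset.mem_Icc] at hn
      have h4 : Nat.log 2 n = l + 1 := by
        apply Nat.log_eq_of_pow_le_of_lt_pow hn.1
        have h5 : (n : ℝ) ≤ 2 * n0 := by
          have : (n : ℝ) ≤ n2 := by exact_mod_cast hn.2
          linarith
        have h6 : n ≤ 2 * n0 := by exact_mod_cast h5
        have h7 : 2 ^ (l + 1 + 1) = 2 * 2 ^ (l + 1) := by ring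
        omega
      rw [hμval n (Finset.mem_Icc.mpr ⟨hs.le.trans hn.1, hn.2⟩), h4]
    rw [h1]
    refine hpart _ n2 (d (l + 1)) ?_ hn2u (hd (l + 1)).1 (hd (l + 1)).2
      (by rw [hdm]; exact min_le_right _ _)
    have : (n0 : ℝ) ≤ ((2 ^ (l + 1) : ℕ) : ℝ) := by exact_mod_cast hs.le
    linarith
  have hsplit : Finset.Icc n0 n2 =
      Finset.Icc n0 (min n2 (2 ^ (l + 1) - 1)) ∪ Finset.Icc (2 ^ (l + 1)) n2 := by
    ext x
    simp only [Finset.mem_Icc, Finset.mem_union]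
    have h2 : 1 ≤ 2 ^ (l + 1) := Nat.one_le_two_pow
    omega
  have hdisj : Disjoint (Finset.Icc n0 (min n2 (2 ^ (l + 1) - 1)))
      (Finset.Icc (2 ^ (l + 1)) n2) := by
    rw [Finset.disjoint_left]
    intro x hx hx'
    simp only [Finset.mem_Icc] at hx hx'
    have h2 : 1 ≤ 2 ^ (l + 1) := Nat.one_le_two_pow
    omega
  have hM3 : ‖∑ n ∈ Finset.Icc n0 n2, μ n‖ ≤ 2 * C3 * (F ^ ε * Q) := by
    rw [hsplit, Finset.sum_union hdisj]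
    refine (norm_add_le _ _).trans ?_
    linarith
  have hsub : Finset.Icc n0 n2 ⊆ Finset.Icc n0 n1 := by
    apply Finset.Icc_subset_Icc_right
    rw [hn2]
    exact min_le_left _ _
  have hM4 : ‖∑ n ∈ Finset.Icc n0 n1, μ n‖ ≤ 1 + 2 * C3 * (F ^ ε * Q) := by
    rw [← Finset.sum_sdiff hsub]
    refine (norm_add_le _ _).trans (add_le_add ?_ hM3)
    refine (norm_sum_le _ _).trans ((Finset.sum_le_sum fun n _ => hμ1 n).trans ?_)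
    rw [Finset.sum_const, nsmul_eq_mul, mul_one]
    have hcc : (Finset.Icc n0 n1 \ Finset.Icc n0 n2).card ≤ 1 := by
      have hss : Finset.Icc n0 n1 \ Finset.Icc n0 n2 ⊆ Finset.Icc (n2 + 1) n1 := by
        intro x hx
        simp only [Finset.mem_sdiff, Finset.mem_Icc] at hx ⊢
        omega
      refine (Finset.card_le_card hss).trans ?_
      rw [Nat.card_Icc]
      omega
    exact_mod_cast hcc
  refine (norm_add_le _ _).trans ((add_le_add hF1' hM4).trans ?_)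
  have hFN : (1 : ℝ) ≤ F ^ ε * N ^ (1 / 2 : ℝ) := one_le_mul_of_one_le_of_one_le hFε1 hNh1
  have hFQ0 : 0 ≤ F ^ ε * Q := by positivity
  have hK0 := abs_nonneg K
  have e1 : (|K| + 2 * C3 + 1) * F ^ ε * (N ^ (1 / 2 : ℝ) + Q) =
      |K| * (F ^ ε * N ^ (1 / 2 : ℝ)) + F ^ ε * N ^ (1 / 2 : ℝ) + 2 * C3 * (F ^ ε * Q) +
      (|K| * (F ^ ε * Q) + F ^ ε * Q + 2 * C3 * (F ^ ε * N ^ (1 / 2 : ℝ))) := by
    ring
  rw [e1]
  have e2 : 0 ≤ |K| * (F ^ ε * Q) + F ^ ε * Q + 2 * C3 * (F ^ ε * N ^ (1 / 2 : ℝ)) := by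
    positivity
  linarith

end Pool.Agent.U501.EP
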