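import Mathlib
import Pool.Agent.U501.EP.MAIN2

set_option autoImplicit false

/-!
# Project EP: consequences of the main bound
-/

namespace Pool.Agent.U501.EP

/-- lower bound for the size of the perturbations at scale `N` -/
theorem dm_lower (d : ℕ → ℝ) (κ c0 : ℝ) (hκ : 0 ≤ κ) (hc0 : 0 < c0)
    (h : ∀ l : ℕ, c0 * (2 : ℝ) ^ (-(κ * l)) ≤ d l) (N : ℝ) (hN : 2 ≤ N) :
    c0 * (4 * N) ^ (-κ) ≤ min (d (Nat.log 2 ⌈N⌉₊)) (d (Nat.log 2 ⌈N⌉₊ + 1)) := by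
  obtain ⟨l, hl⟩ : ∃ l : ℕ, l = Nat.log 2 ⌈N⌉₊ := ⟨_, rfl⟩
  rw [← hl]
  have hn0 : ⌈N⌉₊ ≠ 0 := by
    have h1 : N ≤ (⌈N⌉₊ : ℝ) := Nat.le_ceil N
    intro h2
    rw [h2] at h1
    norm_num at h1
    linarith
  have h1 : 2 ^ l ≤ ⌈N⌉₊ := by rw [hl]; exact Nat.pow_log_le_self 2 hn0
  have h2 : (2 : ℝ) ^ l ≤ 2 * N := by
    have h3 : ((2 ^ l : ℕ) : ℝ) ≤ (⌈N⌉₊ : ℝ) := by exact_mod_cast h1
    have h4 : (⌈N⌉₊ : ℝ) < N + 1 := Nat.ceil_lt_add_one (by linarith)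
    push_cast at h3
    linarith
  have key : ∀ j : ℕ, j ≤ l + 1 → c0 * (4 * N) ^ (-κ) ≤ d j := by
    intro j hj
    refine le_trans ?_ (h j)
    apply mul_le_mul_of_nonneg_left _ hc0.le
    have h5 : (2 : ℝ) ^ (j : ℝ) ≤ 4 * N := by
      rw [Real.rpow_natCast]
      calc (2 : ℝ) ^ j ≤ 2 ^ (l + 1) := pow_le_pow_right₀ (by norm_num) hj
        _ = 2 * 2 ^ l := by ring
        _ ≤ 4 * N := by linarith
    have h6 : (2 : ℝ) ^ (-(κ * (j : ℝ))) = ((2 : ℝ) ^ (j : ℝ)) ^ (-κ) := by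
      rw [← Real.rpow_mul (by norm_num)]
      congr 1
      ring
    rw [h6]
    exact Real.rpow_le_rpow_of_nonpos (by positivity) h5 (by linarith)
  exact le_min (key l (by omega)) (key (l + 1) le_rfl)

/-- `min (√F) (N / (δ √F)) ≤ A N^((1+κ)/2)` -/
theorem min_le_of (κ c0 : ℝ) (hκ : 0 ≤ κ) (hc0 : 0 < c0) (N F dm : ℝ) (hN : 2 ≤ N) (hF : N ≤ F)
    (hdm : c0 * (4 * N) ^ (-κ) ≤ dm) :
    N / (dm * F ^ (1 / 2 : ℝ)) ≤ 4 ^ κ / c0 * (N ^ (1 + κ) / F ^ (1 / 2 : ℝ)) ∧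
    min (F ^ (1 / 2 : ℝ)) (N / (dm * F ^ (1 / 2 : ℝ))) ≤
      (4 ^ κ / c0) ^ (1 / 2 : ℝ) * N ^ ((1 + κ) / 2) := by
  have hN0 : 0 < N := by linarith
  have hF0 : 0 < F := by linarith
  have h0 : 0 < c0 * (4 * N) ^ (-κ) := by positivity
  have hdm0 : 0 < dm := h0.trans_le hdm
  have h1 : N / (dm * F ^ (1 / 2 : ℝ)) ≤ 4 ^ κ / c0 * (N ^ (1 + κ) / F ^ (1 / 2 : ℝ)) := by
    have h2 : N / (dm * F ^ (1 / 2 : ℝ)) ≤ N / ((c0 * (4 * N) ^ (-κ)) * F ^ (1 / 2 : ℝ)) := by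
      gcongr
    refine h2.trans (le_of_eq ?_)
    rw [Real.rpow_neg (by positivity), Real.mul_rpow (by norm_num) hN0.le, Real.rpow_add hN0,
      Real.rpow_one]
    have : F ^ (1 / 2 : ℝ) ≠ 0 := by positivity
    have : (4 : ℝ) ^ κ ≠ 0 := by positivity
    have : N ^ κ ≠ 0 := by positivity
    field_simp
  refine ⟨h1, ?_⟩
  have h3 : min (F ^ (1 / 2 : ℝ)) (N / (dm * F ^ (1 / 2 : ℝ))) ≤
      min (F ^ (1 / 2 : ℝ)) (4 ^ κ / c0 * (N ^ (1 + κ) / F ^ (1 / 2 : ℝ))) := min_le_min_left _ h1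
  refine h3.trans ?_
  set x : ℝ := F ^ (1 / 2 : ℝ) with hx
  set y : ℝ := 4 ^ κ / c0 * (N ^ (1 + κ) / x) with hy
  have hx0 : 0 < x := by positivity
  have hy0 : 0 < y := by positivity
  have hxy : x * y = 4 ^ κ / c0 * N ^ (1 + κ) := by
    rw [hy]
    field_simp
  have h4 : min x y ≤ (x * y) ^ (1 / 2 : ℝ) := by
    rw [← Real.sqrt_eq_rpow]
    apply Real.le_sqrt_of_sq_le
    have h5 : 0 < min x y := lt_min hx0 hy0
    calc min x y ^ 2 = min x y * min x y := sq _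
      _ ≤ x * y := mul_le_mul (min_le_left _ _) (min_le_right _ _) h5.le hx0.le
  refine h4.trans (le_of_eq ?_)
  rw [hxy, Real.mul_rpow (by positivity) (by positivity), ← Real.rpow_mul hN0.le]
  congr 2
  ring

end Pool.Agent.U501.EP
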